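import Pool.Agent.H71.CR.Defs
import Pool.Agent.H92.CW.TP1
import Pool.Agent.H52.CW.TP2
import Pool.Agent.H52.CW.TP3
import Pool.Agent.H52.CW.TP4
import Pool.Agent.H52.CW.TP6
import Pool.Agent.H20.CW.TP5

/-! Perfectly many closed subsets of the Cantor space which are pairwise not homeomorphic. -/

set_option autoImplicit false

open Set

namespace Pool.Agent.CR

/-- TOP: perfectly many trees with pairwise not homeomorphic sets of branches. -/
def TOP : Prop :=
  ∃ T : (ℕ → Bool) → Set (List Bool), (∀ x, [] ∈ T x) ∧ (∀ x i s, i :: s ∈ T x → s ∈ T x) ∧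
    (∀ s, MeasurableSet {x | s ∈ T x}) ∧ ∀ x x', Nonempty (Br (T x) ≃ₜ Br (T x')) → x = x'

lemma pre_cw (p : ℕ → Bool) : ∀ m : ℕ, pre p m = Pool.Agent.CW.pre p m
  | 0 => rfl
  | m + 1 => by
    change p m :: pre p m = p m :: Pool.Agent.CW.pre p m
    rw [pre_cw p m]

lemma br_cw (T : Set (List Bool)) : Br T = Pool.Agent.CW.Br T := by
  ext p
  constructor
  · intro h m
    have h1 := h m
    rw [pre_cw] at h1
    exact h1
  · intro h m
    rw [pre_cw]
    exact h m

theorem top_cr : TOP := by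
  obtain ⟨T, h1, h2, h3, h4⟩ := Pool.Agent.CW.top_of Pool.Agent.CW.pf_TP1
    Pool.Agent.CW.pf_TP3 Pool.Agent.CW.pf_TP4
    (Pool.Agent.CW.pf_TP6 Pool.Agent.CW.pf_TP2 Pool.Agent.CW.pf_TP5)
  refine ⟨T, h1, h2, h3, fun x x' h => h4 x x' ?_⟩
  rw [br_cw, br_cw] at h
  exact h

end Pool.Agent.CR
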