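import Pool.Agent.H71.CR.StmtB

/-!
Row MBI: independent tuples stay mobile.
-/

set_option autoImplicit false

open Set Pool.Agent.TK Pool.Agent.H71.VK

namespace Pool.Agent.CR

/-- row MBI -/
theorem pf_MBI : T_MBI := by
  intro n c Sm G π X u w hw hi a ha
  obtain ⟨h1, h2⟩ := hw a ha
  refine ⟨h1, fun h3 => h2 fun j hj => ?_⟩
  by_contra hX
  have h4 : j ∈ G.sup (w ++ X) := by
    refine G.mono (a :: X) (w ++ X) ?_ hj
    intro y hy
    rcases List.mem_cons.1 hy with h | h
    · exact List.mem_append_left _ (h ▸ ha)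
    · exact List.mem_append_right _ h
  have h5 : j ∈ G.sup (a :: (u ++ X)) := by
    refine G.mono (a :: X) (a :: (u ++ X)) ?_ hj
    intro y hy
    rcases List.mem_cons.1 hy with h | h
    · exact h ▸ List.mem_cons_self
    · exact List.mem_cons_of_mem _ (List.mem_append_right _ h)
  exact hX (hi j (h3 h5) h4)

end Pool.Agent.CR
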