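import Pool.Agent.H71.CR.Stmt2
import Pool.Agent.H16.TK.BF
import Pool.Agent.H75.TK.THN
import Pool.Agent.H75.TK.TYC
import Pool.Agent.H71.ST.Final3
import Pool.Agent.H71.VK.HSK

/-!
The theorem for coded structures of arbitrary finite arity: rich directions.
-/

set_option autoImplicit false

open Set Pool.Agent.TK Pool.Agent.H71.VK

namespace Pool.Agent.CR

open Pool.Agent.H41.ST (RelN FlatN)

section

variable {C : Type}

/-- The group of the automorphisms of `M` which are the identity outside `A` has a closed subgroup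
with a continuous homomorphism onto the infinite symmetric group, which takes the elements which
are the identity on a member of `U` to finitary permutations. -/
def DvS (M : St (C × ℕ)) (U : Set (Set ℕ)) (A : Set ℕ) : Prop :=
  ∃ H : Subgroup (Equiv.Perm ℕ),
    (∀ g ∈ H, IsoH g M M ∧ ∀ z, z ∉ A → g z = z) ∧
    (∀ g : Equiv.Perm ℕ, (∀ E : Finset ℕ, ∃ h ∈ H, ∀ x ∈ E, h x = g x) → g ∈ H) ∧
    ∃ φ : H →* Equiv.Perm ℕ, Function.Surjective φ ∧
      (∀ n : ℕ, ∃ E : Finset ℕ, ∀ h h' : H,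
        (∀ x ∈ E, (h : Equiv.Perm ℕ) x = (h' : Equiv.Perm ℕ) x) → φ h n = φ h' n) ∧
      ∀ (h : H) (B : Set ℕ), B ∈ U → (∀ z ∈ B, (h : Equiv.Perm ℕ) z = z) →
        {n | φ h n ≠ n}.Finite

/-- there is a divisible direction with infinitely many germs -/
def Rich (n : Bd) (M : St (C × ℕ)) : Prop :=
  ∃ U, Dirn n (bn M) U ∧ ¬ FGm n (bn M) U ∧ ∀ A ∈ U, DvS M U A

end

variable {C : Type} [MeasurableSpace C] [StandardBorelSpace C] {c0 : C}

/-- the class satisfies the hypotheses for some rank -/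
theorem exists_hy {n : Bd} {X : Set (St (C × ℕ))} (hX : MeasurableSet X)
    (hV : ∀ M ∈ X, BV c0 n M) (hI : ∀ M ∈ X, ∀ N, Iso M N → N ∈ X) (hP : ¬ Perf X) :
    ∃ b : Rk, Hy c0 n b X := by
  have hNFM : NFM (C × ℕ) := pf_NFM
  have hTYC : TYC (C × ℕ) := pf_TYC pf_THN hNFM
  obtain ⟨b0, hb0⟩ := (pf_LOP : LOP (C × ℕ)) X hX hI
  obtain ⟨b, hb, hbase⟩ : ∃ b : Rk, RLe (C × ℕ) b0 b ∧
      RLe (C × ℕ) (Rk.lim (Rk.lim om2)) b :=
    ⟨Sh (Rk.lim (Rk.lim om2)) b0, RLe.sh_right _ _, RLe.sh_left _ _⟩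
  exact ⟨b, { val := hV
              cl := fun M hM M' h => hb0 M hM M' (hb _ _ _ _ _ h)
              tc := hTYC X hX hI hP
              nf := hNFM X hP
              base := hbase }⟩

/-- **The general theorem for coded structures.** -/
theorem gdf_of (hCTB : T_CTB C) (hFNB : T_FNB C) (hGNG : T_GNG C c0) (hSYG : T_SYG C c0)
    (hDIR : T_DIR) (hSCH : T_SCH) (hEND : E_END C) (n : Bd) (X : Set (St (C × ℕ)))
    (hX : MeasurableSet X) (hV : ∀ M ∈ X, BV c0 n M) (hI : ∀ M ∈ X, ∀ N, Iso M N → N ∈ X)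
    (P : St (C × ℕ) → Prop)
    (hP : ∀ M ∈ X, ∀ (O : Set (Tr C)) (G : GS n (bn M) (SmO O M)), (∀ p ∈ G.K, IsoH p.1 M M) →
      ∀ π, DG n (bn M) (SmO O M) G π → P M) :
    Perf X ∨ (∃ T : Set (St (C × ℕ)), T.Countable ∧ ∀ M ∈ X, ∃ N ∈ T, Iso M N) ∨
      ¬ ∃ T : Set (St (C × ℕ)), T.Countable ∧ ∀ M ∈ X, P M → ∃ N ∈ T, Iso M N := by
  by_cases hPf : Perf X
  · exact Or.inl hPf
  right
  obtain ⟨b, hy⟩ := exists_hy hX hV hI hPf
  obtain ⟨O, hO, hO2⟩ := hCTB c0 n X hV hy.tc b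
  refine (hGNG n O hO X hX hV P ?_).resolve_left hPf
  intro M hM ν φ hF hd
  obtain ⟨G, hG⟩ := hSYG n O M (hV M hM) (fun π S F hπ => by
    refine (hFNB c0 n b X hy M hM π S F hπ).subset ?_
    rintro D ⟨v, R, hv, hvc, hSm, rfl⟩
    refine ⟨v, R, hv, hvc, fun hs => hSm ?_, rfl⟩
    exact hO2 M hM ((S, F, ([v], R), true) :: π) hv hs) ν φ hF hd
  rcases hDIR n (bn M) (SmO O M) G with h | ⟨π, hπ⟩
  · obtain ⟨D, B, hS⟩ := hSCH n (bn M) (SmO O M) G h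
    exact (hEND c0 n b X hy M hM (SmO O M) D B hS fun π hπ hs => hO2 M hM π hπ hs).elim
  · exact hP M hM O G hG π hπ

/-- CWG: the structure theorem for coded structures. -/
def CWG (C : Type) [MeasurableSpace C] [StandardBorelSpace C] (c0 : C) : Prop :=
  ∀ (n : Bd) (X : Set (St (C × ℕ))), MeasurableSet X → (∀ M ∈ X, BV c0 n M) →
    (∀ M ∈ X, ∀ N, Iso M N → N ∈ X) →
    Perf X ∨ (∃ T : Set (St (C × ℕ)), T.Countable ∧ ∀ M ∈ X, ∃ N ∈ T, Iso M N) ∨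
      ¬ ∃ T : Set (St (C × ℕ)), T.Countable ∧ ∀ M ∈ X, Rich n M → ∃ N ∈ T, Iso M N

theorem cwg_of (hCTB : T_CTB C) (hFNB : T_FNB C) (hGNG : T_GNG C c0) (hSYG : T_SYG C c0)
    (hDIR : T_DIR) (hSCH : T_SCH) (hEND : E_END C) (hDVP : T_DVP C c0) : CWG C c0 := by
  intro n X hX hV hI
  refine gdf_of hCTB hFNB hGNG hSYG hDIR hSCH hEND n X hX hV hI (Rich n) ?_
  intro M hM O G hG π hπ
  refine ⟨Dr G π, hπ.dir, hπ.germ, fun A hA => ?_⟩
  obtain ⟨s, h1, h2, h3⟩ := hπ.pc A hA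
  obtain ⟨H, e1, e2, φ, e3, e4, e5⟩ := hDVP n M (hV M hM) _ G hG (s :: π) h1 h2
  refine ⟨H, fun g hg => ⟨(e1 g hg).1, fun z hz => (e1 g hg).2 z fun h => hz (h3 h)⟩, e2, φ, e3, e4,
    ?_⟩
  intro h B hB hid
  refine e5 h (st (bn M) (s :: π) \ B) ?_ ?_
  · exact hB.2.mono fun x hx => ⟨(st_sub _ hx.1).1, hx.2⟩
  · intro z hz
    by_cases hzB : z ∈ B
    · exact hid z hzB
    · exact (e1 _ h.2).2 z fun hzs => hz ⟨hzs, hzB⟩

end Pool.Agent.CR
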