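import Pool.Agent.H71.CR.Stmt2
import Pool.Agent.H71.CR.Main
import Pool.Agent.H14.CR.REP
import Pool.Agent.H37.CR.REX
import Pool.Agent.H14.CR.FCT
import Pool.Agent.H60.CR.FIA
import Pool.Agent.H37.CR.FIX
import Pool.Agent.H13.CR.FXQ
import Pool.Agent.H13.CR.PFI
import Pool.Agent.H43.CR.COP
import Pool.Agent.H43.CR.FAR
import Pool.Agent.H43.CR.UNQ
import Pool.Agent.H43.CR.SAT
import Pool.Agent.H18.CR.BTX
import Pool.Agent.H49.CR.STX
import Pool.Agent.H99.CR.FRM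
import Pool.Agent.H71.CR.MBI
import Pool.Agent.H99.CR.TIB
import Pool.Agent.H49.CR.TIA
import Pool.Agent.H13.CR.TIC
import Pool.Agent.H13.CR.TID
import Pool.Agent.H2.CR.MIN
import Pool.Agent.H3.CR.FRE
import Pool.Agent.H19.CR.ESU
import Pool.Agent.H59.CR.TED
import Pool.Agent.H60.CR.SEP
import Pool.Agent.H5.CR.KPA
import Pool.Agent.H90.CR.SP2
import Pool.Agent.H5.CR.KPB
import Pool.Agent.H80.CR.FNL
import Pool.Agent.H19.CR.CONR
import Pool.Agent.H14.CR.DEC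
import Pool.Agent.H14.CR.ULT
import Pool.Agent.H99.CR.NFG
import Pool.Agent.H60.CR.AVO
import Pool.Agent.H11.CR.DC2
import Pool.Agent.H77.CR.NOD
import Pool.Agent.H69.CR.SCH
import Pool.Agent.H24.CR.CLF
import Pool.Agent.H96.CR.CLT
import Pool.Agent.H75.CR.MEM
import Pool.Agent.H18.CR.FBP
import Pool.Agent.H3.CR.CTB
import Pool.Agent.H73.CR.FGZ
import Pool.Agent.H77.CR.DIR
import Pool.Agent.H32.CR.EXN
import Pool.Agent.H89.CR.PSE
import Pool.Agent.H66.CR.RPX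
import Pool.Agent.H83.CR.RPL
import Pool.Agent.H83.CR.RPB
import Pool.Agent.H78.CR.BLK
import Pool.Agent.H24.CR.RP0
import Pool.Agent.H6.CR.MES
import Pool.Agent.H19.CR.COM
import Pool.Agent.H35.CR.INV
import Pool.Agent.H66.CR.TYP
import Pool.Agent.H76.CR.DCD
import Pool.Agent.H76.CR.MEX
import Pool.Agent.H14.CR.IOT
import Pool.Agent.H81.CR.MST
import Pool.Agent.H81.CR.FIMP
import Pool.Agent.H41.CR.GSW
import Pool.Agent.H81.CR.MBV
import Pool.Agent.H13.CR.GLA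
import Pool.Agent.H75.CR.MVB
import Pool.Agent.H75.CR.MVS
import Pool.Agent.H75.CR.MVC
import Pool.Agent.H89.CR.RTG
import Pool.Agent.H75.CR.RLG
import Pool.Agent.H75.CR.DF
import Pool.Agent.H32.CR.DTX
import Pool.Agent.H19.CR.OMI
import Pool.Agent.H75.CR.WIN
import Pool.Agent.H75.CR.WEX
import Pool.Agent.H75.CR.HMD
import Pool.Agent.H59.CR.END
import Pool.Agent.H14.CR.GNG
import Pool.Agent.H24.CR.EMA
import Pool.Agent.H24.CR.EMS
import Pool.Agent.H90.CR.SYG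
import Pool.Agent.H41.CR.DVP
import Pool.Agent.H21.CR.FNC
import Pool.Agent.H19.CR.WFX
import Pool.Agent.H56.CR.W3
import Pool.Agent.H51.CR.FNB
import Pool.Agent.H14.CR.W2
import Pool.Agent.H60.CR.W1
import Pool.Agent.H37.CR.FEC
import Pool.Agent.H37.CR.W5
import Pool.Agent.H83.CR.GM3
import Pool.Agent.H16.CR.GM2
import Pool.Agent.H76.CR.GMB
import Pool.Agent.H37.CR.W4
import Pool.Agent.H19.CR.WAM
import Pool.Agent.H76.CR.TKB
import Pool.Agent.H13.CR.GMA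

/-! Assembly of the rows. -/

set_option autoImplicit false

open Set Pool.Agent.TK Pool.Agent.H71.VK

namespace Pool.Agent.CR

variable {C : Type} [MeasurableSpace C] [StandardBorelSpace C] {c0 : C}

theorem a_REP : T_REP := pf_REP

theorem a_REX : T_REX := pf_REX a_REP

theorem a_FCT : T_FCT := pf_FCT a_REP

theorem a_FIA : T_FIA := pf_FIA a_REP a_FCT

theorem a_FIX : T_FIX := pf_FIX a_FCT a_FIA

theorem a_FXQ : T_FXQ := pf_FXQ a_REP a_FCT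

theorem a_PFI : T_PFI := pf_PFI a_FCT

theorem a_COP : T_COP := pf_COP

theorem a_FAR : T_FAR := pf_FAR a_COP

theorem a_UNQ : T_UNQ := pf_UNQ a_COP

theorem a_SAT : T_SAT := pf_SAT a_REP a_FAR a_UNQ

theorem a_BTX : T_BTX := pf_BTX a_REP a_FAR

theorem a_STX : T_STX := pf_STX a_REP a_BTX

theorem a_FRM : T_FRM := pf_FRM a_FAR

theorem a_MBI : T_MBI := pf_MBI

theorem a_TIB : T_TIB := pf_TIB a_MBI a_FAR

theorem a_TIA : T_TIA := pf_TIA a_COP a_MBI a_FAR a_FRM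

theorem a_TIC : T_TIC := pf_TIC a_COP a_MBI a_FAR a_TIA a_TIB

theorem a_TID : T_TID := pf_TID a_TIB a_TIC

theorem a_MIN : T_MIN := Pool.Agent.H2.CR.pf_MIN a_FRM a_TIB a_TID a_FAR

theorem a_FRE : T_FRE := pf_FRE a_FAR a_TIA a_TIB a_MIN

theorem a_ESU : T_ESU := pf_ESU a_TIA

theorem a_TED : T_TED := pf_TED a_FRM a_TIB a_FRE a_ESU

theorem a_SEP : T_SEP := pf_SEP a_FRM a_FRE

theorem a_KPA : T_KPA := pf_KPA a_TED a_ESU a_SEP

theorem a_SP2 : T_SP2 := pf_SP2 a_FRE a_TIA a_TIB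

theorem a_KPB : T_KPB := pf_KPB a_KPA a_SEP a_SP2

theorem a_FNL : T_FNL := pf_FNL a_REX a_FAR a_KPA a_KPB

theorem a_CON : T_CON := pf_CON a_SAT a_STX a_FNL

theorem a_DEC : T_DEC := pf_DEC a_REP a_REX a_FIX a_CON

theorem a_ULT : T_ULT := pf_ULT a_DEC

theorem a_NFG : T_NFG := pf_NFG

theorem a_AVO : T_AVO := pf_AVO

theorem a_DC2 : T_DC2 := pf_DC2 a_DEC a_PFI

theorem a_NOD : T_NOD := pf_NOD a_AVO a_DC2

theorem a_SCH : T_SCH := pf_SCH a_NOD a_AVO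

theorem a_CLF : T_CLF := pf_CLF

theorem a_CLT : T_CLT := pf_CLT

theorem a_MEM : T_MEM C := pf_MEM a_CLF a_CLT

theorem a_FBP : T_FBP C := pf_FBP a_MEM

theorem a_CTB : T_CTB C := pf_CTB a_FBP

theorem a_FGZ : T_FGZ := pf_FGZ

theorem a_DIR : T_DIR := pf_DIR a_ULT a_CON a_DEC a_FIA a_FGZ

theorem a_EXN : T_EXN C := pf_EXN

theorem a_PSE : T_PSE C := pf_PSE

theorem a_RPX : T_RPX C := pf_RPX a_PSE

theorem a_RPL : T_RPL C := pf_RPL

theorem a_RPB : T_RPB C := pf_RPB a_PSE a_RPX a_RPL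

theorem a_BLK : T_BLK C := pf_BLK a_RPB

theorem a_RP0 : T_RP0 C := pf_RP0

theorem a_MES : T_MES C := pf_MES a_RP0

theorem a_COM : T_COM C := pf_COM a_PSE a_RPX a_RPL

theorem a_INV : T_INV C := pf_INV a_MEM a_COM a_PSE a_RP0

theorem a_TYP : T_TYP C := pf_TYP a_MEM a_COM a_PSE

theorem a_DCD : T_DCD C := pf_DCD a_MEM a_COM a_PSE a_RP0

theorem a_MEX : T_MEX C := pf_MEX a_COM a_PSE a_RP0

theorem a_IOT : T_IOT C := pf_IOT

theorem a_MST : T_MST C := pf_MST a_CLF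

theorem a_FIMP : T_FIMP C := pf_FIMP a_MST

theorem a_GSW : T_GSW C c0 := pf_GSW

theorem a_MBV : T_MBV C := pf_MBV

theorem a_GLA : T_GLA C c0 := pf_GLA

theorem a_MVB : T_MVB C c0 := pf_MVB a_MST a_MBV a_FIMP a_GLA

theorem a_MVS : T_MVS C := pf_MVS a_MST

theorem a_MVC : T_MVC C c0 := pf_MVC a_MST a_MVS a_MBV a_FIMP a_GSW

theorem a_RTG : T_RTG C := pf_RTG a_IOT

theorem a_RLG : T_RLG C c0 := pf_RLG a_MBV a_MVB a_MVC

theorem a_DF : E_DF C := pf_DF a_INV a_TYP a_DCD a_BLK a_RPB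

theorem a_DTX : E_DTX C := pf_DTX a_EXN a_RP0

theorem a_OMI : E_OMI C := pf_OMI a_IOT

theorem a_WIN : E_WIN C := pf_WIN

theorem a_WEX : E_WEX C := pf_WEX

theorem a_HMD : E_HMD C := pf_HMD a_WIN a_WEX

theorem a_END : E_END C := pf_END a_DF a_DTX a_OMI a_HMD top_cr a_MEX a_MES

theorem a_GNG : T_GNG C c0 := pf_GNG a_RLG a_RTG

theorem a_EMA : T_EMA C c0 := pf_EMA a_GLA

theorem a_EMS : T_EMS C c0 := pf_EMS a_GLA a_GSW

theorem a_SYG : T_SYG C c0 := pf_SYG a_RTG a_EMA a_EMS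

theorem a_DVP : T_DVP C c0 := pf_DVP a_GLA

theorem a_FNC : T_FNC C := pf_FNC a_INV a_PSE a_RPX a_RPL a_CLF a_CLT

theorem a_WFX : T_WFX := pf_WFX

theorem a_W3 : W3 := pf_W3

theorem a_FNB : T_FNB C := pf_FNB a_EXN a_MEX a_MES a_FNC a_BLK a_RPB a_IOT a_INV a_RP0

theorem a_W2 : W2 := pf_W2

theorem a_W1 : W1 := pf_W1

theorem a_FEC : T_FEC := pf_FEC

theorem a_W5 : W5 := pf_W5 a_FEC

theorem a_GM3 : T_GM3 := pf_GM3

theorem a_GM2 : T_GM2 := pf_GM2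

theorem a_GMB : T_GMB := pf_GMB a_FCT a_FIA

theorem a_W4 : W4 := pf_W4 a_REP a_FCT a_FIA a_W1 a_W2 a_W3 a_WFX

theorem a_WAM : T_WAM := pf_WAM a_W4 a_W5

theorem a_TKB : T_TKB := pf_TKB a_FCT a_FIA

theorem a_GMA : T_GMA := pf_GMA a_FCT a_FIA

/-- the structure theorem for coded structures -/
theorem all_CWG (c0 : C) : CWG C c0 :=
  cwg_of a_CTB a_FNB a_GNG a_SYG a_DIR a_SCH a_END a_DVP

end Pool.Agent.CR
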