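import Pool.Agent.H71.CR.Defs
import Pool.Agent.H16.TK.BF
import Pool.Agent.H16.TK.Base

/-! Basic facts on labels, controlled sets and pieces. -/

set_option autoImplicit false

open Set Pool.Agent.TK Pool.Agent.H71.VK

namespace Pool.Agent.CR

variable {c c' c'' : Lf}

/-! ### positions -/

lemma Pl.mono {p q : List (ℕ × ℕ)} (h : Pl c c' p) (hq : ∀ z ∈ q, z ∈ p) : Pl c c' q :=
  fun s hs => h s fun z hz => hq z (hs z hz)

lemma Pl.of_sub {p q : List (ℕ × ℕ)} (h : Pl c c' p) (hq : q ⊆ p) : Pl c c' q :=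
  h.mono fun _ hz => hq hz

lemma pl_diag {p : List (ℕ × ℕ)} (hp : ∀ z ∈ p, z.1 = z.2) : Pl c c p := fun q hq => by
  have h : q.map Prod.fst = q.map Prod.snd := List.map_congr_left fun z hz => hp z (hq z hz)
  rw [h]

lemma pl_dg (L : List ℕ) : Pl c c (dg L) := pl_diag fun _ hz => (mem_dg.1 hz).1

lemma Pl.symm' {p q : List (ℕ × ℕ)} (h : Pl c c' p) (hq : ∀ z ∈ q, (z.2, z.1) ∈ p) :
    Pl c' c q := by
  intro s hs
  have h1 := h (s.map fun z => (z.2, z.1)) (by
    intro z hz
    obtain ⟨w, hw, rfl⟩ := List.mem_map.1 hz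
    exact hq w (hs w hw))
  rw [List.map_map, List.map_map] at h1
  exact h1.symm

/-- composition of positions -/
lemma Pl.comp {p q r : List (ℕ × ℕ)} (h : Pl c c' p) (h' : Pl c' c'' q)
    (hr : ∀ z ∈ r, ∃ b, (z.1, b) ∈ p ∧ (b, z.2) ∈ q) : Pl c c'' r := by
  classical
  intro s hs
  let f : ℕ × ℕ → ℕ := fun z => if hz : ∃ b, (z.1, b) ∈ p ∧ (b, z.2) ∈ q then hz.choose else 0
  have hf : ∀ z ∈ s, (z.1, f z) ∈ p ∧ (f z, z.2) ∈ q := by
    intro z hz
    have h1 := hr z (hs z hz)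
    have e : f z = h1.choose := dif_pos h1
    rw [e]
    exact h1.choose_spec
  have h1 := h (s.map fun z => (z.1, f z)) (by
    intro z hz
    obtain ⟨w, hw, rfl⟩ := List.mem_map.1 hz
    exact (hf w hw).1)
  have h2 := h' (s.map fun z => (f z, z.2)) (by
    intro z hz
    obtain ⟨w, hw, rfl⟩ := List.mem_map.1 hz
    exact (hf w hw).2)
  rw [List.map_map, List.map_map] at h1 h2
  exact h1.trans h2

/-- pairs of a zip -/
lemma zip_get {x y : List ℕ} {z : ℕ × ℕ} (hz : z ∈ x.zip y) :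
    ∃ (i : ℕ) (hx : i < x.length) (hy : i < y.length), z = (x[i], y[i]) := by
  obtain ⟨i, hi, h⟩ := List.mem_iff_getElem.1 hz
  rw [List.length_zip] at hi
  rw [List.getElem_zip] at h
  exact ⟨i, by omega, by omega, h.symm⟩

lemma get_zip {x y : List ℕ} {i : ℕ} (hx : i < x.length) (hy : i < y.length) :
    (x[i], y[i]) ∈ x.zip y := by
  rw [List.mem_iff_getElem]
  exact ⟨i, by rw [List.length_zip]; omega, by rw [List.getElem_zip]⟩

/-- composition along lists of the same length, with a common part -/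
lemma Pl.zip_trans {L x y w : List ℕ} (hxy : x.length = y.length)
    (h : Pl c c' (dg L ++ x.zip y)) (h' : Pl c' c'' (dg L ++ y.zip w)) :
    Pl c c'' (dg L ++ x.zip w) := by
  refine h.comp h' fun z hz => ?_
  rcases List.mem_append.1 hz with h1 | h1
  · have h2 := mem_dg.1 h1
    refine ⟨z.1, List.mem_append_left _ (mem_dg.2 ⟨rfl, h2.2⟩), List.mem_append_left _ ?_⟩
    exact mem_dg.2 ⟨h2.1, h2.2⟩
  · obtain ⟨i, hx, hw, rfl⟩ := zip_get h1
    exact ⟨y[i]'(by omega), List.mem_append_right _ (get_zip hx (by omega)),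
      List.mem_append_right _ (get_zip (by omega) hw)⟩

lemma Pl.zip_symm {L x y : List ℕ} (h : Pl c c' (dg L ++ x.zip y)) :
    Pl c' c (dg L ++ y.zip x) := by
  refine h.symm' fun z hz => ?_
  rcases List.mem_append.1 hz with h1 | h1
  · have h2 := mem_dg.1 h1
    refine List.mem_append_left _ (mem_dg.2 ⟨h2.1.symm, ?_⟩)
    change z.2 ∈ L
    rw [← h2.1]
    exact h2.2
  · obtain ⟨i, hx, hw, rfl⟩ := zip_get h1
    exact List.mem_append_right _ (get_zip hw hx)

/-- automorphisms preserve the labels -/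
lemma pl_map {h : ℕ → ℕ} (H : ∀ l : List ℕ, c' (l.map h) = c l) {p : List (ℕ × ℕ)}
    (hp : ∀ z ∈ p, z.2 = h z.1) : Pl c c' p := by
  intro q hq
  have e : q.map Prod.snd = (q.map Prod.fst).map h := by
    rw [List.map_map]
    exact List.map_congr_left fun z hz => hp z (hq z hz)
  rw [e, H]

/-- transfer of positions along an isomorphism -/
lemma pl_iso {h : ℕ → ℕ} (H : ∀ l : List ℕ, c' (l.map h) = c l) (p : List (ℕ × ℕ)) :
    Pl c' c' (p.map (Prod.map h h)) ↔ Pl c c p := by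
  have e1 : ∀ q : List (ℕ × ℕ), (q.map (Prod.map h h)).map Prod.fst = (q.map Prod.fst).map h := by
    intro q
    rw [List.map_map, List.map_map]
    rfl
  have e2 : ∀ q : List (ℕ × ℕ), (q.map (Prod.map h h)).map Prod.snd = (q.map Prod.snd).map h := by
    intro q
    rw [List.map_map, List.map_map]
    rfl
  constructor
  · intro h1 q hq
    have h2 := h1 (q.map (Prod.map h h)) fun z hz => by
      obtain ⟨w, hw, rfl⟩ := List.mem_map.1 hz
      exact List.mem_map_of_mem (hq w hw)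
    rw [e1, e2, H, H] at h2
    exact h2
  · intro h1 q hq
    classical
    have hch : ∀ z ∈ q, ∃ w ∈ p, Prod.map h h w = z := fun z hz => List.mem_map.1 (hq z hz)
    obtain ⟨q', hq', rfl⟩ : ∃ q' : List (ℕ × ℕ), (∀ w ∈ q', w ∈ p) ∧
        q'.map (Prod.map h h) = q := by
      clear hq
      induction q with
      | nil => exact ⟨[], by simp, rfl⟩
      | cons z q ih =>
        obtain ⟨q', h2, h3⟩ := ih fun z hz => hch z (List.mem_cons_of_mem _ hz)
        obtain ⟨w, hw, rfl⟩ := hch z List.mem_cons_self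
        refine ⟨w :: q', ?_, by rw [List.map_cons, h3]⟩
        intro v hv
        rcases List.mem_cons.1 hv with rfl | hv
        · exact hw
        · exact h2 v hv
    rw [e1, e2, H, H]
    exact h1 q' hq'

lemma dg_append (a b : List ℕ) : dg (a ++ b) = dg a ++ dg b := List.map_append

lemma dg_map (h : ℕ → ℕ) (L : List ℕ) : dg (L.map h) = (dg L).map (Prod.map h h) := by
  unfold dg
  rw [List.map_map, List.map_map]
  rfl

/-! ### controlled sets -/

lemma mem_ur {P : Set ℕ} {L : List ℕ} {y : ℕ} : y ∈ Ur P L ↔ y ∈ P ∧ y ∉ L := Iff.rfl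

/-- intersections of controlled sets are controlled -/
lemma cc_sInter {L : List ℕ} {F : Ed} {U : Set ℕ} {S : Set (Set ℕ)} (hne : S.Nonempty)
    (hS : ∀ Z ∈ S, Cc c L F U Z) : Cc c L F U (⋂₀ S) := by
  obtain ⟨Z0, hZ0⟩ := hne
  refine ⟨fun y hy => (hS Z0 hZ0).sub (hy Z0 hZ0), ?_, ?_⟩
  · intro p hp hpl
    have key : ∀ (k : ℕ) (D : List ℕ), D.length ≤ k → (∀ x ∈ D, x ∈ U ∧ x ∉ ⋂₀ S) →
        Pl c c (dg D ++ (dg L ++ p)) := by
      intro k
      induction k with
      | zero =>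
        intro D hD _
        have e : D = [] := List.length_eq_zero_iff.1 (Nat.le_zero.1 hD)
        rw [e]
        exact hpl
      | succ k ih =>
        intro D hD hDU
        by_cases h0 : D = []
        · rw [h0]
          exact hpl
        obtain ⟨a, ha⟩ := List.exists_mem_of_ne_nil D h0
        obtain ⟨Z, hZ, haZ⟩ : ∃ Z ∈ S, a ∉ Z := by
          have h1 := (hDU a ha).2
          rw [Set.mem_sInter] at h1
          push Not at h1
          exact h1
        classical
        let D2 := D.filter fun x => decide (x ∈ Z)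
        let D1 := D.filter fun x => decide (x ∉ Z)
        have hD2 : D2.length ≤ k := by
          have h1 : D2.length < D.length := by
            refine lt_of_le_of_ne (List.length_filter_le _ _) fun h2 => ?_
            have h3 := List.length_filter_eq_length_iff.1 h2 a ha
            exact haZ (of_decide_eq_true h3)
          omega
        have h1 := ih D2 hD2 fun x hx => hDU x (List.mem_of_mem_filter hx)
        have h2 := (hS Z hZ).ctl (dg D2 ++ p) (by
          intro z hz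
          rcases List.mem_append.1 hz with h3 | h3
          · have h4 := mem_dg.1 h3
            have h5 : z.1 ∈ Z := of_decide_eq_true (List.mem_filter.1 h4.2).2
            exact ⟨h5, h4.1 ▸ h5⟩
          · exact ⟨(hp z h3).1 Z hZ, (hp z h3).2 Z hZ⟩) (h1.mono (by
          intro z hz
          simp only [List.mem_append] at hz ⊢
          tauto)) D1 (by
          intro x hx
          have h3 := List.mem_filter.1 hx
          exact ⟨(hDU x h3.1).1, of_decide_eq_true h3.2⟩)
        refine h2.mono ?_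
        intro z hz
        simp only [List.mem_append, mem_dg] at hz ⊢
        rcases hz with hz | hz
        · by_cases h3 : z.1 ∈ Z
          · exact Or.inr (Or.inr (Or.inl ⟨hz.1, List.mem_filter.2 ⟨hz.2, by simpa using h3⟩⟩))
          · exact Or.inl ⟨hz.1, List.mem_filter.2 ⟨hz.2, by simpa using h3⟩⟩
        · rcases hz with hz | hz
          · exact Or.inr (Or.inl hz)
          · exact Or.inr (Or.inr (Or.inr hz))
    exact fun D hD => key D.length D le_rfl hD
  · intro e he d hd hdU hpl hex x hx Z hZ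
    obtain ⟨y, hy, hyS⟩ := hex
    exact (hS Z hZ).edg e he d hd hdU hpl ⟨y, hy, hyS Z hZ⟩ x hx

lemma cc_univ (L : List ℕ) (F : Ed) (U : Set ℕ) : Cc c L F U U := by
  refine ⟨Subset.rfl, fun p _ hpl D hD => ?_, fun e _ d _ hdU _ _ => hdU⟩
  have e : D = [] := by
    by_contra h0
    obtain ⟨a, ha⟩ := List.exists_mem_of_ne_nil D h0
    exact (hD a ha).2 (hD a ha).1
  rw [e]
  exact hpl

lemma cc_empty (L : List ℕ) (F : Ed) (U : Set ℕ) : Cc c L F U ∅ := by
  refine ⟨empty_subset _, fun p hp hpl D hD => ?_, fun e _ d _ _ _ hex => ?_⟩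
  · have e : p = [] := by
      by_contra h0
      obtain ⟨a, ha⟩ := List.exists_mem_of_ne_nil p h0
      exact (hp a ha).1
    rw [e]
    refine pl_diag fun z hz => ?_
    simp only [List.append_nil, List.mem_append, mem_dg] at hz
    rcases hz with h | h
    · exact h.1
    · exact h.1
  · obtain ⟨y, _, hy⟩ := hex
    exact absurd hy (Set.notMem_empty y)

variable {P : Set ℕ} {L : List ℕ} {F : Ed} {x : Xr}

lemma cl_eq_sInter (hx : ∀ a ∈ x.1, a ∈ Ur P L) :
    cl c P L F x = ⋂₀ {Z | Cc c L F (Ur P L) Z ∧ ∀ a ∈ x.1, a ∈ Z} := by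
  ext y
  constructor
  · intro hy Z hZ
    exact hy.2 Z hZ.1 hZ.2
  · intro hy
    refine ⟨hy (Ur P L) ⟨cc_univ L F _, hx⟩, fun Z h1 h2 => hy Z ⟨h1, h2⟩⟩

/-- the closure is controlled -/
lemma cc_cl (hx : ∀ a ∈ x.1, a ∈ Ur P L) : Cc c L F (Ur P L) (cl c P L F x) := by
  rw [cl_eq_sInter hx]
  exact cc_sInter ⟨_, cc_univ L F _, hx⟩ fun Z hZ => hZ.1

lemma cl_sub : ∀ y ∈ cl c P L F x, y ∈ P ∧ y ∉ L := fun _ hy => hy.1

lemma base_mem_cl (hx : ∀ a ∈ x.1, a ∈ Ur P L) {a : ℕ} (ha : a ∈ x.1) : a ∈ cl c P L F x :=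
  ⟨hx a ha, fun _ _ h => h a ha⟩

lemma cl_min {Z : Set ℕ} (hZ : Cc c L F (Ur P L) Z) (hx : ∀ a ∈ x.1, a ∈ Z) :
    cl c P L F x ⊆ Z := fun _ hy => hy.2 Z hZ hx

lemma cl_mono {y : Xr} (h : ∀ a ∈ x.1, a ∈ cl c P L F y) : cl c P L F x ⊆ cl c P L F y := by
  intro w hw
  exact ⟨hw.1, fun Z hZ hy => hw.2 Z hZ fun a ha => (h a ha).2 Z hZ hy⟩

/-- the closure does not depend on the representatives -/
lemma cl_snd (X R R' : List ℕ) : cl c P L F (X, R) = cl c P L F (X, R') := rfl

lemma cl_nil (R : List ℕ) : cl c P L F ([], R) = ∅ := by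
  rw [Set.eq_empty_iff_forall_notMem]
  intro y hy
  exact hy.2 ∅ (cc_empty L F _) (by simp)

/-- closures of points of an atom -/
lemma vc_eq {v w : ℕ} (hv : Vc c P L F v) (R R' : List ℕ) (hw : w ∈ cl c P L F ([v], R)) :
    cl c P L F ([w], R') = cl c P L F ([v], R) := by
  apply Subset.antisymm
  · refine cl_mono ?_
    intro a ha
    rw [List.mem_singleton] at ha
    rw [ha]
    exact hw
  · refine cl_mono ?_
    intro a ha
    rw [List.mem_singleton] at ha
    rw [ha]
    exact hv w hw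

/-- the points of an atom are atoms -/
lemma vc_of_mem {v w : ℕ} (hv : Vc c P L F v) (hw : w ∈ cl c P L F ([v], [])) :
    Vc c P L F w := by
  intro u hu
  rw [vc_eq hv [] [] hw] at hu
  rw [vc_eq hv [] [] hu]
  exact hw

/-- two atoms are equal or disjoint -/
lemma vc_disj {v v' : ℕ} (hv : Vc c P L F v) (hv' : Vc c P L F v') (R R' : List ℕ)
    (hU : v' ∈ Ur P L) (hne : v' ∉ cl c P L F ([v], R)) :
    ∀ w ∈ cl c P L F ([v], R), w ∉ cl c P L F ([v'], R') := by
  intro w hw hw'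
  apply hne
  rw [← vc_eq hv R [] hw, vc_eq hv' R' [] hw']
  exact base_mem_cl (by intro a ha; rw [List.mem_singleton] at ha; rw [ha]; exact hU)
    List.mem_cons_self

/-! ### pieces -/

lemma st_true (π : Pr) (S : List ℕ) (F : Ed) (x : Xr) :
    st c ((S, F, x, true) :: π) = cl c (st c π) (S ++ zl π) F x := rfl

lemma st_false (π : Pr) (S : List ℕ) (F : Ed) (x : Xr) :
    st c ((S, F, x, false) :: π) = co c (st c π) (S ++ zl π) F x := rfl

lemma zl_true (π : Pr) (S : List ℕ) (F : Ed) (x : Xr) :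
    zl ((S, F, x, true) :: π) = S ++ zl π := rfl

lemma zl_false (π : Pr) (S : List ℕ) (F : Ed) (x : Xr) :
    zl ((S, F, x, false) :: π) = x.2 ++ (S ++ zl π) := rfl

lemma dl_cons (s : Stp) (π : Pr) :
    dl (s :: π) = s.2.2.1.1 ++ (s.2.2.1.2 ++ (s.2.1.flatten ++ (s.1 ++ dl π))) := rfl

lemma mem_dl_cons {s : Stp} {π : Pr} {a : ℕ} : a ∈ dl (s :: π) ↔
    a ∈ s.2.2.1.1 ∨ a ∈ s.2.2.1.2 ∨ (∃ e ∈ s.2.1, a ∈ e) ∨ a ∈ s.1 ∨ a ∈ dl π := by
  rw [dl_cons]
  simp only [List.mem_append, List.mem_flatten]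

lemma vd_cons {s : Stp} {π : Pr} : Vd c (s :: π) ↔
    Vd c π ∧ (∀ a ∈ s.1, a ∈ st c π) ∧
      (∀ e ∈ s.2.1, ∀ a ∈ e, a ∈ Ur (st c π) (s.1 ++ zl π)) ∧
      (∀ a ∈ s.2.2.1.1, a ∈ Ur (st c π) (s.1 ++ zl π)) ∧
      Rr c (st c π) (s.1 ++ zl π) s.2.1 s.2.2.1 := Iff.rfl

/-- both sides of a step lie in the piece outside the control list of the step -/
lemma st_sub' (S : List ℕ) (F : Ed) (x : Xr) (β : Bool) (π : Pr) :
    ∀ y ∈ st c ((S, F, x, β) :: π), y ∈ st c π ∧ y ∉ S ++ zl π := by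
  intro y hy
  cases β with
  | true => exact hy.1
  | false => exact ⟨hy.1, hy.2.1⟩

lemma st_sub {s : Stp} {π : Pr} : ∀ y ∈ st c (s :: π), y ∈ st c π ∧ y ∉ s.1 ++ zl π := by
  obtain ⟨S, F, x, β⟩ := s
  exact st_sub' S F x β π

/-- the control list is disjoint from the piece; the piece is controlled by it -/
lemma ctl_aux : ∀ {π : Pr}, Vd c π → (∀ a ∈ zl π, a ∉ st c π) ∧
    ∀ p : List (ℕ × ℕ), (∀ z ∈ p, z.1 ∈ st c π ∧ z.2 ∈ st c π) → Pl c c (dg (zl π) ++ p) →
      ∀ D : List ℕ, (∀ y ∈ D, y ∉ st c π) → Pl c c (dg D ++ (dg (zl π) ++ p)) := by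
  intro π
  induction π with
  | nil =>
    intro _
    refine ⟨by simp [zl], fun p _ hpl D hD => ?_⟩
    have e : D = [] := by
      by_contra h0
      obtain ⟨a, ha⟩ := List.exists_mem_of_ne_nil D h0
      exact hD a ha (mem_univ a)
    rw [e]
    exact hpl
  | cons s π ih =>
    classical
    obtain ⟨S, F, x, β⟩ := s
    intro hv
    obtain ⟨h1, h2, h3, h4, h5⟩ := vd_cons.1 hv
    simp only at h2 h3 h4 h5
    obtain ⟨i1, i2⟩ := ih h1
    have hsub := st_sub' (c := c) S F x β π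
    -- control in the larger piece
    have key : ∀ (L : List ℕ), (∀ a ∈ L, a ∈ st c π) → S ⊆ L → ∀ p : List (ℕ × ℕ),
        (∀ z ∈ p, z.1 ∈ st c ((S, F, x, β) :: π) ∧ z.2 ∈ st c ((S, F, x, β) :: π)) →
        (∀ D : List ℕ, (∀ y ∈ D, y ∈ Ur (st c π) (S ++ zl π) ∧
          y ∉ st c ((S, F, x, β) :: π)) → Pl c c (dg D ++ (dg (L ++ zl π) ++ p))) →
        ∀ D : List ℕ, (∀ y ∈ D, y ∉ st c ((S, F, x, β) :: π)) →
          Pl c c (dg D ++ (dg (L ++ zl π) ++ p)) := by
      intro L hL hSL p hp hctl D hD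
      let D1 := D.filter fun y => decide (y ∈ Ur (st c π) (S ++ zl π))
      let D2 := D.filter fun y => decide (y ∉ st c π)
      have h6 := hctl D1 fun y hy => by
        have := List.mem_filter.1 hy
        exact ⟨of_decide_eq_true this.2, hD y this.1⟩
      have h7 := i2 (dg D1 ++ (dg L ++ p)) (by
        intro z hz
        simp only [List.mem_append, mem_dg] at hz
        rcases hz with hz | hz | hz
        · have h8 : z.1 ∈ st c π := (of_decide_eq_true (List.mem_filter.1 hz.2).2 : z.1 ∈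
            Ur (st c π) (S ++ zl π)).1
          exact ⟨h8, hz.1 ▸ h8⟩
        · exact ⟨hL _ hz.2, hz.1 ▸ hL _ hz.2⟩
        · exact ⟨(hsub _ (hp z hz).1).1, (hsub _ (hp z hz).2).1⟩) (h6.mono (by
        intro z hz
        simp only [List.mem_append, mem_dg] at hz ⊢
        tauto)) D2 (fun y hy => of_decide_eq_true (List.mem_filter.1 hy).2)
      refine h7.mono ?_
      intro z hz
      simp only [List.mem_append, mem_dg] at hz ⊢
      rcases hz with hz | hz | hz
      · by_cases h8 : z.1 ∈ st c π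
        · by_cases h9 : z.1 ∈ S ++ zl π
          · rcases List.mem_append.1 h9 with h10 | h10
            · exact Or.inr (Or.inr (Or.inr (Or.inl ⟨hz.1, hSL h10⟩)))
            · exact Or.inr (Or.inl ⟨hz.1, h10⟩)
          · refine Or.inr (Or.inr (Or.inl ⟨hz.1, List.mem_filter.2 ⟨hz.2, ?_⟩⟩))
            exact decide_eq_true (⟨h8, h9⟩ : z.1 ∈ Ur (st c π) (S ++ zl π))
        · exact Or.inl ⟨hz.1, List.mem_filter.2 ⟨hz.2, decide_eq_true h8⟩⟩
      · rcases hz with ⟨hz, hz' | hz'⟩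
        · exact Or.inr (Or.inr (Or.inr (Or.inl ⟨hz, hz'⟩)))
        · exact Or.inr (Or.inl ⟨hz, hz'⟩)
      · exact Or.inr (Or.inr (Or.inr (Or.inr hz)))
    cases β with
    | true =>
      refine ⟨fun a ha h => (hsub a h).2 ha, fun p hp hpl D hD => ?_⟩
      rw [zl_true] at hpl ⊢
      refine key S h2 (fun a ha => ha) p hp ?_ D hD
      exact (cc_cl (c := c) (F := F) h4).ctl p hp hpl
    | false =>
      have hxR : ∀ a ∈ x.2, a ∈ cl c (st c π) (S ++ zl π) F x := h5.1
      refine ⟨fun a ha h => ?_, fun p hp hpl D hD => ?_⟩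
      · rw [zl_false, List.mem_append] at ha
        rcases ha with ha | ha
        · exact h.2.2 (hxR a ha)
        · exact (hsub a h).2 ha
      · have e : zl ((S, F, x, false) :: π) = (x.2 ++ S) ++ zl π := by
          rw [zl_false, List.append_assoc]
        rw [e] at hpl ⊢
        refine key (x.2 ++ S) ?_ (fun a ha => List.mem_append_right _ ha) p hp ?_ D hD
        · intro a ha
          rcases List.mem_append.1 ha with ha | ha
          · exact (hxR a ha).1.1
          · exact h2 a ha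
        · intro D' hD'
          rw [List.append_assoc] at hpl ⊢
          refine h5.2 p hp hpl D' fun y hy => ?_
          obtain ⟨h6, h7⟩ := hD' y hy
          by_contra h8
          exact h7 ⟨h6.1, h6.2, h8⟩

lemma zl_disj {π : Pr} (h : Vd c π) : ∀ a ∈ zl π, a ∉ st c π := (ctl_aux h).1

lemma ctl {π : Pr} (h : Vd c π) {p : List (ℕ × ℕ)}
    (hp : ∀ z ∈ p, z.1 ∈ st c π ∧ z.2 ∈ st c π) (hpl : Pl c c (dg (zl π) ++ p)) {D : List ℕ}
    (hD : ∀ y ∈ D, y ∉ st c π) : Pl c c (dg D ++ (dg (zl π) ++ p)) := (ctl_aux h).2 p hp hpl D hD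

lemma vd_app : ∀ {σ π : Pr}, Vd c (σ ++ π) → Vd c π
  | [], _, h => h
  | _ :: _, _, h => vd_app (vd_cons.1 h).1

lemma st_app : ∀ {σ π : Pr}, st c (σ ++ π) ⊆ st c π
  | [], _ => subset_rfl
  | s :: σ, π => fun y hy => st_app (σ := σ) (π := π) (st_sub (s := s) y hy).1

/-- the two sides of a step -/
lemma vd_flip {π : Pr} {S : List ℕ} {F : Ed} {x : Xr} {β : Bool} (γ : Bool)
    (h : Vd c ((S, F, x, β) :: π)) : Vd c ((S, F, x, γ) :: π) := h

lemma st_disj (π : Pr) (S : List ℕ) (F : Ed) (x : Xr) :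
    Disjoint (st c ((S, F, x, true) :: π)) (st c ((S, F, x, false) :: π)) := by
  rw [Set.disjoint_left]
  intro y hy hy'
  exact hy'.2.2 hy

lemma st_cover {π : Pr} {S : List ℕ} {F : Ed} {x : Xr} {y : ℕ} (h : Vd c π) (hy : y ∈ st c π)
    (hS : y ∉ S) : y ∈ st c ((S, F, x, true) :: π) ∨ y ∈ st c ((S, F, x, false) :: π) := by
  by_cases h1 : y ∈ st c ((S, F, x, true) :: π)
  · exact Or.inl h1
  · right
    refine ⟨hy, ?_, h1⟩
    rw [List.mem_append]
    rintro (h2 | h2)
    · exact hS h2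
    · exact zl_disj h y h2 hy

lemma zl_sub_dl : ∀ π : Pr, zl π ⊆ dl π
  | [] => by simp [zl]
  | (S, F, x, β) :: π => by
    intro a ha
    rw [mem_dl_cons]
    have ih := zl_sub_dl π
    cases β with
    | true =>
      rw [zl_true, List.mem_append] at ha
      rcases ha with h | h
      · exact Or.inr (Or.inr (Or.inr (Or.inl h)))
      · exact Or.inr (Or.inr (Or.inr (Or.inr (ih h))))
    | false =>
      rw [zl_false, List.mem_append, List.mem_append] at ha
      rcases ha with h | h | h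
      · exact Or.inr (Or.inl h)
      · exact Or.inr (Or.inr (Or.inr (Or.inl h)))
      · exact Or.inr (Or.inr (Or.inr (Or.inr (ih h))))

lemma dl_sub_cons (s : Stp) (π : Pr) : dl π ⊆ dl (s :: π) := fun _ ha =>
  mem_dl_cons.2 (Or.inr (Or.inr (Or.inr (Or.inr ha))))

lemma dl_app (σ π : Pr) : dl π ⊆ dl (σ ++ π) := by
  induction σ with
  | nil => exact fun a ha => ha
  | cons s σ ih => exact fun a ha => dl_sub_cons s (σ ++ π) (ih ha)

/-- the parameters of an extension are old parameters or lie in the piece -/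
lemma dl_ext : ∀ {σ π : Pr}, Vd c (σ ++ π) → ∀ a ∈ dl (σ ++ π), a ∈ dl π ∨ a ∈ st c π
  | [], _, _, _, ha => Or.inl ha
  | s :: σ, π, h, a, ha => by
    have h1 : Vd c (s :: (σ ++ π)) := h
    obtain ⟨h2, h3, h4, h5, h6⟩ := vd_cons.1 h1
    have ha' : a ∈ dl (s :: (σ ++ π)) := ha
    rw [mem_dl_cons] at ha'
    rcases ha' with h7 | h7 | ⟨e, he, h7⟩ | h7 | h7
    · exact Or.inr (st_app (h5 a h7).1)
    · exact Or.inr (st_app (h6.1 a h7).1.1)
    · exact Or.inr (st_app (h4 e he a h7).1)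
    · exact Or.inr (st_app (h3 a h7))
    · exact dl_ext h2 a h7

/-! ### renaming -/

lemma mp_nil (h : ℕ → ℕ) : mp h [] = [] := rfl

lemma mp_cons (h : ℕ → ℕ) (s : Stp) (π : Pr) :
    mp h (s :: π) = (s.1.map h, s.2.1.map (List.map h), (s.2.2.1.1.map h, s.2.2.1.2.map h),
      s.2.2.2) :: mp h π := rfl

lemma zl_mp (h : ℕ → ℕ) : ∀ π : Pr, zl (mp h π) = (zl π).map h
  | [] => rfl
  | (S, F, x, β) :: π => by
    rw [mp_cons]
    cases β with
    | true =>
      change S.map h ++ zl (mp h π) = (S ++ zl π).map h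
      rw [zl_mp h π, List.map_append]
    | false =>
      change x.2.map h ++ (S.map h ++ zl (mp h π)) = (x.2 ++ (S ++ zl π)).map h
      rw [zl_mp h π, List.map_append, List.map_append]

lemma dl_mp (h : ℕ → ℕ) : ∀ π : Pr, dl (mp h π) = (dl π).map h
  | [] => rfl
  | s :: π => by
    rw [mp_cons, dl_cons, dl_cons, dl_mp h π]
    simp only [List.map_append, List.map_flatten]

lemma mp_mp (h g : ℕ → ℕ) (π : Pr) : mp g (mp h π) = mp (g ∘ h) π := by
  unfold mp
  rw [List.map_map]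
  apply List.map_congr_left
  intro s _
  simp [Function.comp_def]

lemma mp_id (π : Pr) : mp id π = π := by
  unfold mp
  conv_rhs => rw [← List.map_id π]
  apply List.map_congr_left
  intro s _
  simp

lemma mp_congr {h g : ℕ → ℕ} : ∀ {π : Pr}, (∀ a ∈ dl π, h a = g a) → mp h π = mp g π
  | [], _ => rfl
  | s :: π, H => by
    rw [mp_cons, mp_cons]
    have H' : ∀ a, (a ∈ s.2.2.1.1 ∨ a ∈ s.2.2.1.2 ∨ (∃ e ∈ s.2.1, a ∈ e) ∨ a ∈ s.1 ∨ a ∈ dl π) →
        h a = g a := fun a ha => H a (mem_dl_cons.2 ha)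
    have h1 : s.1.map h = s.1.map g := List.map_congr_left fun a ha =>
      H' a (Or.inr (Or.inr (Or.inr (Or.inl ha))))
    have h2 : s.2.2.1.1.map h = s.2.2.1.1.map g := List.map_congr_left fun a ha =>
      H' a (Or.inl ha)
    have h3 : s.2.2.1.2.map h = s.2.2.1.2.map g := List.map_congr_left fun a ha =>
      H' a (Or.inr (Or.inl ha))
    have h4 : s.2.1.map (List.map h) = s.2.1.map (List.map g) := List.map_congr_left fun e he =>
      List.map_congr_left fun a ha => H' a (Or.inr (Or.inr (Or.inl ⟨e, he, ha⟩)))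
    rw [h1, h2, h3, h4, mp_congr fun a ha => H' a (Or.inr (Or.inr (Or.inr (Or.inr ha))))]

lemma mp_fix {h : ℕ → ℕ} {π : Pr} (H : ∀ a ∈ dl π, h a = a) : mp h π = π := by
  rw [mp_congr (g := id) H, mp_id]

lemma map_fix {h : ℕ → ℕ} {L : List ℕ} (H : ∀ a ∈ L, h a = a) : L.map h = L := by
  conv_rhs => rw [← List.map_id L]
  exact List.map_congr_left H

end Pool.Agent.CR
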