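import Pool.Agent.H71.CR.Main

/-! Coding of structures of arity `r`. -/

set_option autoImplicit false

open Set Pool.Agent.TK Pool.Agent.H71.VK

namespace Pool.Agent.CR

variable {r n : ℕ} {C : Type}

/-- the labels of lists -/
def nb (c : (Fin r → ℕ) → Fin n) : Lf :=
  fun l => if l.length = r then ((c fun i => l.getD i 0 : Fin n) : ℕ) else 0

/-- decoded structures -/
abbrev DS (r n : ℕ) (C : Type) : Type := ((Fin r → ℕ) → Fin n) × (ℕ → C)

/-- coding of structures -/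
def enc (c0 : C) (x : DS r n C) : St (C × ℕ) :=
  (fun u v => decide (u ≠ v), fun l => (if l.length = 1 then x.2 (l.getD 0 0) else c0, nb x.1 l))

lemma bn_enc (c0 : C) (x : DS r n C) : bn (enc c0 x) = nb x.1 := rfl

lemma lb_nb (c : (Fin r → ℕ) → Fin (n + 1)) : Lb (n + 1, r) (nb c) := by
  refine ⟨fun l => ?_, fun l hl => ?_⟩
  · unfold nb
    split_ifs with h
    · exact (c _).2
    · exact Nat.succ_pos n
  · have hl' : r < l.length := hl
    unfold nb
    rw [if_neg (by omega)]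

lemma bv_enc (c0 : C) (x : DS r (n + 1) C) : BV c0 (n + 1, r) (enc c0 x) := by
  refine ⟨fun _ _ => rfl, fun l hl => ?_, lb_nb x.1⟩
  change (if l.length = 1 then x.2 (l.getD 0 0) else c0) = c0
  rw [if_neg hl]

lemma measurable_nb [MeasurableSpace C] :
    Measurable fun x : DS r n C => (nb x.1 : Lf) := by
  refine measurable_pi_lambda _ fun l => ?_
  unfold nb
  by_cases h : l.length = r
  · simp only [h, if_true]
    have h1 : Measurable fun x : DS r n C => x.1 fun i => l.getD i 0 :=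
      (measurable_pi_apply _).comp measurable_fst
    exact (measurable_of_countable (fun i : Fin n => (i : ℕ))).comp h1
  · simp only [h, if_false]
    exact measurable_const

lemma measurable_enc [MeasurableSpace C] (c0 : C) :
    Measurable (enc c0 : DS r n C → St (C × ℕ)) := by
  refine Measurable.prodMk measurable_const (measurable_pi_lambda _ fun l => ?_)
  refine Measurable.prodMk ?_ ?_
  · by_cases h : l.length = 1
    · simp only [h, if_true]
      exact (measurable_pi_apply _).comp measurable_snd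
    · simp only [h, if_false]
      exact measurable_const
  · exact (measurable_pi_apply l).comp measurable_nb

/-- decoding -/
def decd (M : St (C × ℕ)) : DS r (n + 1) C :=
  (fun a => Fin.ofNat (n + 1) (M.2 (List.ofFn a)).2, fun a => (M.2 [a]).1)

lemma nb_ofFn (c : (Fin r → ℕ) → Fin n) (a : Fin r → ℕ) : nb c (List.ofFn a) = (c a : ℕ) := by
  unfold nb
  rw [if_pos (List.length_ofFn (f := a))]
  have e : (fun i : Fin r => (List.ofFn a).getD i 0) = a := by
    funext i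
    rw [List.getD_eq_getElem _ _ (by rw [List.length_ofFn]; exact i.2), List.getElem_ofFn]
  rw [e]

lemma dec_enc (c0 : C) (x : DS r (n + 1) C) : decd (enc c0 x) = x := by
  refine Prod.ext ?_ ?_
  · funext a
    change Fin.ofNat (n + 1) (nb x.1 (List.ofFn a)) = x.1 a
    rw [nb_ofFn]
    simp
  · rfl

lemma measurable_dec [MeasurableSpace C] :
    Measurable (decd : St (C × ℕ) → DS r (n + 1) C) := by
  refine Measurable.prodMk ?_ ?_
  · refine measurable_pi_lambda _ fun a => ?_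
    have h : Measurable fun M : St (C × ℕ) => (M.2 (List.ofFn a)).2 :=
      measurable_snd.comp ((measurable_pi_apply (List.ofFn a)).comp measurable_snd)
    exact (measurable_of_countable (fun i : ℕ => Fin.ofNat (n + 1) i)).comp h
  · refine measurable_pi_lambda _ fun a => ?_
    exact measurable_fst.comp ((measurable_pi_apply [a]).comp measurable_snd)

/-- isomorphism of decoded structures -/
def IsoD (x y : DS r n C) : Prop :=
  ∃ g : Equiv.Perm ℕ, (∀ a : Fin r → ℕ, y.1 (g ∘ a) = x.1 a) ∧ ∀ i, y.2 (g i) = x.2 i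

lemma nb_map {c c' : (Fin r → ℕ) → Fin n} {g : ℕ → ℕ} (h : ∀ a : Fin r → ℕ, c' (g ∘ a) = c a)
    (l : List ℕ) : nb c' (l.map g) = nb c l := by
  unfold nb
  rw [List.length_map]
  by_cases hl : l.length = r
  · rw [if_pos hl, if_pos hl, ← h]
    have e : (fun i : Fin r => (l.map g).getD i 0) = g ∘ fun i : Fin r => l.getD i 0 := by
      funext i
      have h1 : (i : ℕ) < l.length := by
        rw [hl]
        exact i.2
      rw [List.getD_eq_getElem _ _ (by rw [List.length_map]; exact h1), List.getElem_map]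
      change g l[(i : ℕ)] = g (l.getD i 0)
      rw [List.getD_eq_getElem _ _ h1]
    rw [e]
  · rw [if_neg hl, if_neg hl]

lemma iso_enc {c0 : C} {x y : DS r n C} {g : Equiv.Perm ℕ}
    (h1 : ∀ a : Fin r → ℕ, y.1 (g ∘ a) = x.1 a) (h2 : ∀ i, y.2 (g i) = x.2 i) :
    Iso (enc c0 x) (enc c0 y) := by
  refine ⟨g, by simp, fun u v => ?_, fun l => ?_⟩
  · change decide (u ≠ v) = decide (g u ≠ g v)
    rw [decide_eq_decide, Ne, Ne, g.injective.eq_iff]
  · change ((if l.length = 1 then x.2 (l.getD 0 0) else c0), nb x.1 l) =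
      ((if (l.map g).length = 1 then y.2 ((l.map g).getD 0 0) else c0), nb y.1 (l.map g))
    rw [nb_map h1, List.length_map]
    by_cases hl : l.length = 1
    · obtain ⟨a, rfl⟩ := List.length_eq_one_iff.1 hl
      simp [h2]
    · rw [if_neg hl, if_neg hl]

lemma iso_enc_inv {c0 : C} {x y : DS r n C} (h : Iso (enc c0 x) (enc c0 y)) : IsoD x y := by
  obtain ⟨g, -, -, h2⟩ := h
  refine ⟨g, fun a => ?_, fun i => ?_⟩
  · have h3 := h2 (List.ofFn a)
    have h4 : nb x.1 (List.ofFn a) = nb y.1 ((List.ofFn a).map g) := (Prod.ext_iff.1 h3).2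
    rw [List.map_ofFn, nb_ofFn, nb_ofFn] at h4
    exact (Fin.ext h4).symm
  · have h3 := h2 [i]
    change (x.2 i, nb x.1 [i]) = (y.2 (g i), nb y.1 [g i]) at h3
    exact (Prod.ext_iff.1 h3).1.symm

lemma isoD_iff {c0 : C} {x y : DS r n C} : IsoD x y ↔ Iso (enc c0 x) (enc c0 y) :=
  ⟨fun ⟨_, h1, h2⟩ => iso_enc h1 h2, fun h => iso_enc_inv h⟩

lemma exists_of_iso {c0 : C} {x : DS r n C} {N : St (C × ℕ)}
    (h : Iso (enc c0 x) N) : ∃ y : DS r n C, N = enc c0 y ∧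
      ∃ g : Equiv.Perm ℕ, (∀ a : Fin r → ℕ, y.1 (g ∘ a) = x.1 a) ∧ ∀ i, y.2 (g i) = x.2 i := by
  obtain ⟨g, -, h1, h2⟩ := h
  have e : ∀ a : Fin r → ℕ, g.symm ∘ (g ∘ a) = a := fun a => by
    funext i
    simp
  let y : DS r n C := (fun a => x.1 (g.symm ∘ a), fun i => x.2 (g.symm i))
  have hy1 : ∀ a : Fin r → ℕ, y.1 (g ∘ a) = x.1 a := fun a => by
    change x.1 (g.symm ∘ (g ∘ a)) = x.1 a
    rw [e]
  have hy2 : ∀ i, y.2 (g i) = x.2 i := fun i => by
    change x.2 (g.symm (g i)) = x.2 i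
    rw [g.symm_apply_apply]
  refine ⟨y, ?_, g, hy1, hy2⟩
  obtain ⟨g', -, h3, h4⟩ : ∃ g' : Equiv.Perm ℕ, g' = g ∧ (∀ u v, (enc c0 x).1 u v =
      (enc c0 y).1 (g u) (g v)) ∧ ∀ l : List ℕ, (enc c0 x).2 l = (enc c0 y).2 (l.map g) := by
    refine ⟨g, rfl, fun u v => ?_, fun l => ?_⟩
    · change decide (u ≠ v) = decide (g u ≠ g v)
      rw [decide_eq_decide, Ne, Ne, g.injective.eq_iff]
    · change ((if l.length = 1 then x.2 (l.getD 0 0) else c0), nb x.1 l) =
        ((if (l.map g).length = 1 then y.2 ((l.map g).getD 0 0) else c0), nb y.1 (l.map g))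
      rw [nb_map hy1, List.length_map]
      by_cases hl : l.length = 1
      · obtain ⟨a, rfl⟩ := List.length_eq_one_iff.1 hl
        simp [hy2]
      · rw [if_neg hl, if_neg hl]
  refine Prod.ext ?_ ?_
  · funext u v
    have h5 := h1 (g.symm u) (g.symm v)
    have h6 := h3 (g.symm u) (g.symm v)
    rw [g.apply_symm_apply, g.apply_symm_apply] at h5 h6
    rw [← h5, h6]
  · funext l
    have h5 := h2 (l.map g.symm)
    have h6 := h4 (l.map g.symm)
    rw [List.map_map, Equiv.self_comp_symm, List.map_id] at h5 h6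
    rw [← h5, h6]

/-- perfectly many types of decoded structures -/
def PerfD [MeasurableSpace C] (X : Set (DS r n C)) : Prop :=
  ∃ f : (ℕ → Bool) → DS r n C, Measurable f ∧ (∀ u, f u ∈ X) ∧ ∀ u v, u ≠ v → ¬ IsoD (f u) (f v)

/-- countably many types of decoded structures -/
def CntD (X : Set (DS r n C)) : Prop :=
  ∃ D : Set (DS r n C), D.Countable ∧ ∀ x ∈ X, ∃ y ∈ D, IsoD x y

lemma iso_symm' {M N : St (C × ℕ)} (h : Iso M N) : Iso N M := by
  obtain ⟨g, -, h1, h2⟩ := h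
  refine ⟨g.symm, by simp, fun u v => ?_, fun l => ?_⟩
  · rw [h1]; simp
  · rw [h2, List.map_map]; simp

lemma iso_trans' {M N L : St (C × ℕ)} (h : Iso M N) (h' : Iso N L) : Iso M L := by
  obtain ⟨g, -, h1, h2⟩ := h
  obtain ⟨g', -, h1', h2'⟩ := h'
  refine ⟨g.trans g', by simp, fun u v => ?_, fun l => ?_⟩
  · rw [h1, h1']; rfl
  · rw [h2, h2', List.map_map]; rfl

lemma perf_dec [MeasurableSpace C] {c0 : C} {m : ℕ}
    {X : Set (DS r (m + 1) C)} (h : Perf (enc c0 '' X)) : PerfD X := by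
  obtain ⟨f, hf1, hf2, hf3⟩ := h
  refine ⟨fun u => decd (f u), measurable_dec.comp hf1, fun u => ?_, fun u v huv hg => ?_⟩
  · obtain ⟨x, hx, hxe⟩ := hf2 u
    change decd (f u) ∈ X
    rw [← hxe, dec_enc]
    exact hx
  · refine hf3 u v huv ?_
    obtain ⟨x, hx, hxe⟩ := hf2 u
    obtain ⟨y, hy, hye⟩ := hf2 v
    simp only [← hxe, ← hye, dec_enc] at hg
    rw [← hxe, ← hye]
    exact isoD_iff.1 hg

lemma cnt_dec {c0 : C} {m : ℕ} {X : Set (DS r (m + 1) C)}
    (h : ∃ T : Set (St (C × ℕ)), T.Countable ∧ ∀ M ∈ enc c0 '' X, ∃ N ∈ T, Iso M N) :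
    CntD X := by
  classical
  obtain ⟨T, hT1, hT2⟩ := h
  let s : St (C × ℕ) → St (C × ℕ) := fun N =>
    if h : ∃ y ∈ X, Iso N (enc c0 y) then enc c0 h.choose else N
  refine ⟨{y | enc c0 y ∈ s '' T}, ?_, ?_⟩
  · refine Set.Countable.mono (s₂ := (decd : St (C × ℕ) → DS r (m + 1) C) ''
      (s '' T)) ?_ ((hT1.image _).image _)
    rintro y hy
    exact ⟨_, hy, dec_enc c0 y⟩
  · intro x hx
    obtain ⟨N, hN, hiso⟩ := hT2 (enc c0 x) ⟨x, hx, rfl⟩
    have hex : ∃ y ∈ X, Iso N (enc c0 y) := ⟨x, hx, iso_symm' hiso⟩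
    refine ⟨hex.choose, ⟨N, hN, ?_⟩, isoD_iff.2 (iso_trans' hiso hex.choose_spec.2)⟩
    change (if h : ∃ y ∈ X, Iso N (enc c0 y) then enc c0 h.choose else N) = _
    rw [dif_pos hex]

lemma cnt_enc {c0 : C} {X : Set (DS r n C)} (h : CntD X) :
    ∃ T : Set (St (C × ℕ)), T.Countable ∧ ∀ M ∈ enc c0 '' X, ∃ N ∈ T, Iso M N := by
  obtain ⟨D, hD1, hD2⟩ := h
  refine ⟨enc c0 '' D, hD1.image _, ?_⟩
  rintro _ ⟨x, hx, rfl⟩
  obtain ⟨y, hy, h⟩ := hD2 x hx
  exact ⟨_, ⟨y, hy, rfl⟩, isoD_iff.1 h⟩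

lemma meas_img [MeasurableSpace C] [StandardBorelSpace C] {c0 : C} {m : ℕ}
    {X : Set (DS r (m + 1) C)} (hX : MeasurableSet X) :
    MeasurableSet (enc c0 '' X) := by
  refine hX.image_of_measurable_injOn (measurable_enc c0) fun x _ y _ h => ?_
  rw [← dec_enc c0 x, ← dec_enc c0 y, h]

lemma inv_img {c0 : C} {X : Set (DS r n C)}
    (hinv : ∀ x ∈ X, ∀ y, IsoD x y → y ∈ X) :
    ∀ M ∈ enc c0 '' X, ∀ N, Iso M N → N ∈ enc c0 '' X := by
  rintro _ ⟨x, hx, rfl⟩ N hN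
  obtain ⟨y, rfl, g, g1, g2⟩ := exists_of_iso hN
  exact ⟨y, hinv x hx y ⟨g, g1, g2⟩, rfl⟩

/-- **The final reduction.** -/
theorem final_cwg [MeasurableSpace C] [StandardBorelSpace C] (hG : ∀ c0 : C, CWG C c0)
    (hNFG : T_NFG) (hWAM : T_WAM) (hGMA : T_GMA) (hGMB : T_GMB) (hGM2 : T_GM2)
    (hGM3 : T_GM3)
    (X : Set (DS r n C)) (hX : MeasurableSet X)
    (hinv : ∀ x ∈ X, ∀ y, IsoD x y → y ∈ X) :
    CntD X ∨ PerfD X ∨
      (CntD {x ∈ X | (∃ k, Wd (n, r) (nb x.1) k) ∨ ∃ m, AtM (n, r) (nb x.1) m} ∧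
        ¬ CntD {x ∈ X | ∃ c0, Rich (n, r) (enc c0 x)}) := by
  classical
  rcases X.eq_empty_or_nonempty with rfl | ⟨x0, hx0⟩
  · exact Or.inl ⟨∅, countable_empty, by simp⟩
  let c0 : C := x0.2 0
  obtain ⟨m, rfl⟩ : ∃ m, n = m + 1 := ⟨n - 1, by
    have := (x0.1 fun _ => 0).pos
    omega⟩
  by_cases hP : PerfD X
  · exact Or.inr (Or.inl hP)
  -- parts of `X`
  have hsub : ∀ X' ⊆ X, ¬ PerfD X' := by
    rintro X' hX' ⟨f, h1, h2, h3⟩
    exact hP ⟨f, h1, fun u => hX' (h2 u), h3⟩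
  have hA : ∀ k, CntD {x ∈ X | AtM (m + 1, r) (nb x.1) k} := by
    intro k
    have heq : {x ∈ X | AtM (m + 1, r) (nb x.1) k} =
        X ∩ (fun x : DS r (m + 1) C => nb x.1) ⁻¹' {c | AtQ (m + 1, r) c k} := by
      ext x
      simp only [mem_inter_iff, mem_preimage, mem_ofPred_eq]
      exact and_congr_right fun _ => ⟨hGMA _ _ (lb_nb x.1) k, hGMB _ _ (lb_nb x.1) k⟩
    have hm : MeasurableSet {x ∈ X | AtM (m + 1, r) (nb x.1) k} := by
      rw [heq]
      exact hX.inter (measurable_nb (hGM2 _ k))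
    refine cnt_dec (c0 := c0) ?_
    rcases hG c0 (m + 1, r) (enc c0 '' {x ∈ X | AtM (m + 1, r) (nb x.1) k}) (meas_img hm)
      (by rintro _ ⟨x, hx, rfl⟩; exact bv_enc c0 x) (inv_img (by
        rintro x ⟨hx, hxk⟩ y ⟨g, g1, g2⟩
        exact ⟨hinv x hx y ⟨g, g1, g2⟩,
          hGM3 _ (nb x.1) (nb y.1) g (nb_map g1) k hxk⟩)) with h | h | h
    · exact absurd (perf_dec h) (hsub _ (sep_subset _ _))
    · exact h
    · exfalso
      apply h
      refine ⟨∅, countable_empty, ?_⟩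
      rintro _ ⟨x, hx, rfl⟩ ⟨U, hU1, hU2, -⟩
      exact absurd (hNFG _ _ _ hx.2 U hU1) hU2
  rcases hG c0 (m + 1, r) (enc c0 '' X) (meas_img hX)
    (by rintro _ ⟨x, hx, rfl⟩; exact bv_enc c0 x) (inv_img hinv) with h | h | h
  · exact absurd (perf_dec h) hP
  · exact Or.inl (cnt_dec h)
  · refine Or.inr (Or.inr ⟨?_, fun hc => h ?_⟩)
    · choose E hE1 hE2 using hA
      refine ⟨⋃ k, E k, countable_iUnion hE1, ?_⟩
      rintro x ⟨hx, hx2⟩
      obtain ⟨k, hk⟩ : ∃ k, AtM (m + 1, r) (nb x.1) k := by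
        rcases hx2 with ⟨k, hk⟩ | h2
        · obtain ⟨m', hm'⟩ := hWAM (m + 1, r) k
          exact ⟨m', hm' _ (lb_nb x.1) hk⟩
        · exact h2
      obtain ⟨y, hy, hxy⟩ := hE2 k x ⟨hx, hk⟩
      exact ⟨y, mem_iUnion.2 ⟨k, hy⟩, hxy⟩
    · obtain ⟨T, hT1, hT2⟩ := cnt_enc (c0 := c0) hc
      refine ⟨T, hT1, ?_⟩
      rintro _ ⟨x, hx, rfl⟩ hR
      exact hT2 _ ⟨x, ⟨hx, c0, hR⟩, rfl⟩

end Pool.Agent.CR
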