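import Pool.Agent.H41.ST.GEN1

/-!
Definitions for the structure theorem for Borel classes of structures of arbitrary finite arity.
Proof text: H71_L2.md in the team store. The relations of a structure are coded by one label
function `c : List ℕ → ℕ`. Compare the binary case in `Pool/Agent/H76/CW/Defs.lean`.
-/

set_option autoImplicit false

open Set Pool.Agent.TK Pool.Agent.H71.VK

namespace Pool.Agent.CR

/-- label functions -/
abbrev Lf := List ℕ → ℕ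

/-- bounds for the labels and for the arity -/
abbrev Bd := ℕ × ℕ

/-- the labels agree on all lists from the position -/
def Pl (c c' : Lf) (p : List (ℕ × ℕ)) : Prop :=
  ∀ q : List (ℕ × ℕ), (∀ z ∈ q, z ∈ p) → c (q.map Prod.fst) = c' (q.map Prod.snd)

/-- labels less than `n.1`, trivial on the lists of length more than `n.2` -/
structure Lb (n : Bd) (c : Lf) : Prop where
  bd : ∀ l, c l < n.1
  ar : ∀ l, n.2 < l.length → c l = 0

/-- the tuples `x` and `x'` have the same labels together with the points of `Y` -/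
def SO (c : Lf) (Y : Set ℕ) (x x' : List ℕ) : Prop :=
  x.length = x'.length ∧
    ∀ D : List ℕ, (∀ y ∈ D, y ∈ Y) → Pl c c (dg D ++ x.zip x')

/-- the tuples of `A` have finitely many classes over `Y` -/
def Fx (n : Bd) (c : Lf) (Y A : Set ℕ) : Prop :=
  ∃ E : List (List ℕ), (∀ e ∈ E, ∀ a ∈ e, a ∈ A) ∧
    ∀ x : List ℕ, x.length ≤ n.2 → (∀ a ∈ x, a ∈ A) → ∃ e ∈ E, SO c Y x e

/-- sets of finite index: finitely many classes over the complement -/
def Fi (n : Bd) (c : Lf) (A : Set ℕ) : Prop := Fx n c Aᶜ A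

/-- lists of types of edges, given by examples -/
abbrev Ed := List (List ℕ)

/-- base points and representatives -/
abbrev Xr := List ℕ × List ℕ

/-- the set `Z` is controlled by `L` in `U` and closed under the edges with types in `F` -/
structure Cc (c : Lf) (L : List ℕ) (F : Ed) (U Z : Set ℕ) : Prop where
  sub : Z ⊆ U
  ctl : ∀ p : List (ℕ × ℕ), (∀ z ∈ p, z.1 ∈ Z ∧ z.2 ∈ Z) → Pl c c (dg L ++ p) →
    ∀ D : List ℕ, (∀ x ∈ D, x ∈ U ∧ x ∉ Z) → Pl c c (dg D ++ (dg L ++ p))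
  edg : ∀ e ∈ F, ∀ d : List ℕ, d.length = e.length → (∀ x ∈ d, x ∈ U) →
    Pl c c (dg L ++ d.zip e) → (∃ x ∈ d, x ∈ Z) → ∀ x ∈ d, x ∈ Z

/-- the points of `P` outside `L` -/
def Ur (P : Set ℕ) (L : List ℕ) : Set ℕ := {y | y ∈ P ∧ y ∉ L}

/-- the least controlled set in `P` without `L` which contains the base points -/
def cl (c : Lf) (P : Set ℕ) (L : List ℕ) (F : Ed) (x : Xr) : Set ℕ :=
  {y | y ∈ Ur P L ∧ ∀ Z, Cc c L F (Ur P L) Z → (∀ a ∈ x.1, a ∈ Z) → y ∈ Z}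

/-- the other points of `P` without `L` -/
def co (c : Lf) (P : Set ℕ) (L : List ℕ) (F : Ed) (x : Xr) : Set ℕ :=
  {y | y ∈ P ∧ y ∉ L ∧ y ∉ cl c P L F x}

/-- the representatives of the closure control its complement -/
def Rr (c : Lf) (P : Set ℕ) (L : List ℕ) (F : Ed) (x : Xr) : Prop :=
  (∀ a ∈ x.2, a ∈ cl c P L F x) ∧
  ∀ q : List (ℕ × ℕ), (∀ z ∈ q, z.1 ∈ co c P L F x ∧ z.2 ∈ co c P L F x) →
    Pl c c (dg (x.2 ++ L) ++ q) → ∀ D : List ℕ, (∀ y ∈ D, y ∈ cl c P L F x) →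
      Pl c c (dg D ++ (dg (x.2 ++ L) ++ q))

/-- steps: parameters, edges, base points with representatives, and `true` for the closure -/
abbrev Stp := List ℕ × Ed × Xr × Bool

/-- presentations of pieces: lists of steps, the last step is the head -/
abbrev Pr := List Stp

/-- the control list -/
def zl : Pr → List ℕ
  | [] => []
  | s :: π => if s.2.2.2 = true then s.1 ++ zl π else s.2.2.1.2 ++ (s.1 ++ zl π)

/-- all parameters -/
def dl : Pr → List ℕ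
  | [] => []
  | s :: π => s.2.2.1.1 ++ (s.2.2.1.2 ++ (s.2.1.flatten ++ (s.1 ++ dl π)))

/-- the piece with a given presentation -/
def st (c : Lf) : Pr → Set ℕ
  | [] => univ
  | s :: π => if s.2.2.2 = true then cl c (st c π) (s.1 ++ zl π) s.2.1 s.2.2.1
      else co c (st c π) (s.1 ++ zl π) s.2.1 s.2.2.1

/-- valid presentations -/
def Vd (c : Lf) : Pr → Prop
  | [] => True
  | s :: π => Vd c π ∧ (∀ a ∈ s.1, a ∈ st c π) ∧
      (∀ e ∈ s.2.1, ∀ a ∈ e, a ∈ Ur (st c π) (s.1 ++ zl π)) ∧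
      (∀ a ∈ s.2.2.1.1, a ∈ Ur (st c π) (s.1 ++ zl π)) ∧
      Rr c (st c π) (s.1 ++ zl π) s.2.1 s.2.2.1

/-- renaming of the parameters -/
def mp (h : ℕ → ℕ) (π : Pr) : Pr :=
  π.map (fun s => (s.1.map h, s.2.1.map (List.map h), (s.2.2.1.1.map h, s.2.2.1.2.map h),
    s.2.2.2))

/-- the closure of a point is an atom: it is the closure of each of its points -/
def Vc (c : Lf) (P : Set ℕ) (L : List ℕ) (F : Ed) (v : ℕ) : Prop :=
  ∀ w ∈ cl c P L F ([v], []), v ∈ cl c P L F ([w], [])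

/-- the sets `Z` and `Z'` can be exchanged -/
def Swp (c : Lf) (P : Set ℕ) (L : List ℕ) (Z Z' : Set ℕ) : Prop :=
  ∀ p q : List (ℕ × ℕ), (∀ z ∈ p, z.1 ∈ Z ∧ z.2 ∈ Z') → (∀ z ∈ q, z.1 ∈ Z' ∧ z.2 ∈ Z) →
    Pl c c (dg L ++ p) → Pl c c (dg L ++ q) →
    ∀ D : List ℕ, (∀ x ∈ D, x ∈ Ur P L ∧ x ∉ Z ∧ x ∉ Z') → Pl c c (dg D ++ (dg L ++ (p ++ q)))

/-- the tuples of `A` have at most `k` classes over `Y` -/
def Few (n : Bd) (c : Lf) (k : ℕ) (Y A : Set ℕ) : Prop :=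
  ∃ f : List ℕ → Fin k, ∀ x x' : List ℕ, x.length ≤ n.2 → x.length = x'.length →
    (∀ a ∈ x, a ∈ A) → (∀ a ∈ x', a ∈ A) → f x = f x' → SO c Y x x'

/-- the nodes of decomposition trees of the finite set `W` of width at most `k` -/
inductive MW (n : Bd) (c : Lf) (k : ℕ) (W : Finset ℕ) : Finset ℕ → Prop
  | sing (x : ℕ) : x ∈ W → MW n c k W {x}
  | join (A B : Finset ℕ) : MW n c k W A → MW n c k W B → Disjoint A B →
      Few n c k ((W : Set ℕ) \ ((A ∪ B : Finset ℕ) : Set ℕ)) ((A ∪ B : Finset ℕ) : Set ℕ) →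
      MW n c k W (A ∪ B)

/-- width at most `k` -/
def Wd (n : Bd) (c : Lf) (k : ℕ) : Prop := ∀ W : Finset ℕ, W.Nonempty → MW n c k W W

/-- The group and the supports: `K` is a group of pairs, `sup` are the least supports, `Sm` is
the set of the presentations of small pieces. -/
structure GS (n : Bd) (c : Lf) (Sm : Pr → Prop) where
  lb : Lb n c
  K : Subgroup (Equiv.Perm ℕ × Equiv.Perm ℕ)
  sup : List ℕ → Finset ℕ
  aut : ∀ p ∈ K, ∀ l : List ℕ, c (l.map p.1) = c l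
  mono : ∀ a b : List ℕ, a ⊆ b → sup a ⊆ sup b
  eqv : ∀ p ∈ K, ∀ (a : List ℕ) (j : ℕ), j ∈ sup a ↔ p.2 j ∈ sup (a.map p.1)
  surj : ∀ (a : List ℕ) (σ : Equiv.Perm ℕ), (∀ j ∈ sup a, σ j = j) →
    ∃ h : Equiv.Perm ℕ, (h, σ) ∈ K ∧ ∀ x ∈ a, h x = x
  nil : sup [] = ∅
  unb : ∃ a, sup a ≠ ∅
  sml : ∀ π : Pr, Vd c π → Sm π → ∀ Z : List ℕ, dl π ⊆ Z → ∀ v ∈ st c π,
    sup (v :: Z) ⊆ sup Z
  cmp : ∀ (π : Pr) (S : List ℕ) (F : Ed) (v : ℕ) (R : List ℕ),
    Vd c ((S, F, ([v], R), true) :: π) → Vc c (st c π) (S ++ zl π) F v →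
    Sm ((S, F, ([v], R), true) :: π) → ∀ Z : List ℕ, dl π ⊆ Z → S ⊆ Z → F.flatten ⊆ Z →
    (∀ p ∈ K, (∀ z ∈ Z, p.1 z = z) → p.1 v ∉ st c ((S, F, ([v], R), true) :: π) →
      Swp c (st c π) (S ++ zl π) (st c ((S, F, ([v], R), true) :: π))
        (p.1 '' st c ((S, F, ([v], R), true) :: π))) →
    sup (v :: Z) ⊆ sup Z
  fin : ∀ (π : Pr) (S : List ℕ) (F : Ed), Vd c π →
    {D : Set ℕ | ∃ (v : ℕ) (R : List ℕ), Vd c ((S, F, ([v], R), true) :: π) ∧
      Vc c (st c π) (S ++ zl π) F v ∧ ¬ Sm ((S, F, ([v], R), true) :: π) ∧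
      D = st c ((S, F, ([v], R), true) :: π)}.Finite

/-- the ideal of the sets which are not good -/
def GS.Nn {n : Bd} {c : Lf} {Sm : Pr → Prop} (G : GS n c Sm) (A : Set ℕ) : Prop :=
  ∃ Z : List ℕ, ∀ Z' : List ℕ, Z ⊆ Z' → ∀ v ∈ A, G.sup (v :: Z') ⊆ G.sup Z'

/-- the tuples `x` and `x'` have the same germ in `P` over `z` -/
def GS.Gm {n : Bd} {c : Lf} {Sm : Pr → Prop} (G : GS n c Sm) (P : Set ℕ) (z x x' : List ℕ) :
    Prop :=
  ∃ N : Set ℕ, G.Nn N ∧ SO c {y | (y ∈ P ∧ y ∉ N) ∨ y ∈ z} x x'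

/-- Cantor scheme of pieces `D s` with blocks `B s` -/
structure Sch (c : Lf) (Sm : Pr → Prop) (D B : List Bool → Pr) : Prop where
  vD : ∀ s, Vd c (D s)
  vB : ∀ s, Vd c (B s)
  suf : ∀ i s, ∃ σ : Pr, D (i :: s) = σ ++ D s
  suB : ∀ s, ∃ σ : Pr, B s = σ ++ D s
  dj : ∀ s, Disjoint (st c (D (true :: s))) (st c (D (false :: s)))
  djB : ∀ i s, Disjoint (st c (B s)) (st c (D (i :: s)))
  pD : ∀ s t, ∀ a ∈ dl (D s), a ∉ st c (B t)
  pB : ∀ s t, ∀ a ∈ dl (B s), a ∉ st c (B t)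
  dec : ∀ ρ : Pr, Vd c ρ → ∃ m : ℕ, ∀ s : List Bool, m ≤ s.length →
    st c (D s) ⊆ st c ρ ∨ Disjoint (st c (D s)) (st c ρ)
  vtx : ∀ v : ℕ, ∃ m : ℕ, ∀ s : List Bool, m ≤ s.length → v ∉ st c (D s)
  ne : ∀ s, (st c (B s)).Nonempty
  big : ∀ s, ¬ Sm (B s)

/-! ### structures -/

/-- the rank `omega ^ 2` -/
def om2 : Rk := Rk.sup (fun n => (Rk.lim^[n]) Rk.zero)

section
variable {C : Type}

/-- the labels of a structure -/
def bn (M : St (C × ℕ)) : Lf := fun l => (M.2 l).2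

/-- structures with labels bounded by `n`; the graph is complete -/
def BV (c0 : C) (n : Bd) (M : St (C × ℕ)) : Prop :=
  (∀ u v, M.1 u v = decide (u ≠ v)) ∧ (∀ l : List ℕ, l.length ≠ 1 → (M.2 l).1 = c0) ∧
    Lb n (bn M)

/-- triples: a structure, a list and a set -/
abbrev Tr (C : Type) := St (C × ℕ) × List ℕ × Set ℕ

/-- the type of `(M, z, P)` is in `O` -/
def InO (O : Set (Tr C)) (M : St (C × ℕ)) (z : List ℕ) (P : Set ℕ) : Prop :=
  ∃ t ∈ O, FI M z P t.1 t.2.1 t.2.2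

/-- only countably many types are equivalent of rank `b` to `(M, z, P)` -/
def sml (c0 : C) (n : Bd) (b : Rk) (M : St (C × ℕ)) (z : List ℕ) (P : Set ℕ) : Prop :=
  ∃ T : Set (Tr C), T.Countable ∧ ∀ (N : St (C × ℕ)) (z' : List ℕ) (Q : Set ℕ), BV c0 n N →
    FB b M z P N z' Q → InO T N z' Q

/-- the hypotheses on the class -/
structure Hy [MeasurableSpace C] (c0 : C) (n : Bd) (b : Rk) (X : Set (St (C × ℕ))) : Prop where
  val : ∀ M ∈ X, BV c0 n M
  cl : Cl b X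
  tc : TC X
  nf : NoFam X
  base : RLe (C × ℕ) (Rk.lim (Rk.lim om2)) b

open Classical in
/-- positions between `rp T` and `rp T'`, where `Δ = T \ T'` -/
def Ps {ι : Type} (M : St (C × ℕ)) (B : ι → Set ℕ) (z : ι → List ℕ) (R : ι → St (C × ℕ))
    (Δ : Set ι) (r : Rk) (p : List (ℕ × ℕ)) : Prop :=
  (∀ q ∈ p, (∀ i ∈ Δ, q.1 ∉ B i) → q.1 = q.2) ∧
  (∀ q ∈ p, ∀ i ∈ Δ, (q.1 ∈ B i ↔ q.2 ∈ B i)) ∧
  ∀ i ∈ Δ, bf (R i) M (B i) (B i) r (dg (z i) ++ p.filter (fun q => decide (q.1 ∈ B i)))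

open Classical in
/-- replacement of the blocks `B i`, `i ∈ T`, by the structures `R i` -/
noncomputable def rp {ι : Type} (M : St (C × ℕ)) (B : ι → Set ℕ) (z : ι → List ℕ)
    (R : ι → St (C × ℕ)) (T : Set ι) : St (C × ℕ) :=
  (M.1, fun l => if h : ∃ i ∈ T, l ≠ [] ∧ ∀ x ∈ l, x ∈ B i then (R h.choose).2 l
    else if h' : ∃ q : List (ℕ × ℕ), q.map Prod.fst = l ∧ Ps M B z R T Rk.zero q
      then M.2 (h'.choose.map Prod.snd) else M.2 l)

/-- admissible replacement data -/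
structure RA {ι : Type} (c0 : C) (n : Bd) (b : Rk) (M : St (C × ℕ)) (B : ι → Set ℕ)
    (z : ι → List ℕ) (R : ι → St (C × ℕ)) : Prop where
  val : BV c0 n M
  vaR : ∀ i, BV c0 n (R i)
  disj : ∀ i j, i ≠ j → Disjoint (B i) (B j)
  avo : ∀ i j, ∀ x ∈ z i, x ∉ B j
  ctl : ∀ i, ∀ p : List (ℕ × ℕ), (∀ q ∈ p, q.1 ∈ B i ∧ q.2 ∈ B i) →
    Pl (bn M) (bn M) (dg (z i) ++ p) → ∀ D : List ℕ, (∀ y ∈ D, y ∉ B i) →
    Pl (bn M) (bn M) (dg D ++ (dg (z i) ++ p))
  fb : ∀ i, FB b M (z i) (B i) (R i) (z i) (B i)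
  base : RLe (C × ℕ) (Rk.lim (Rk.lim om2)) b

/-! ### the space of points at infinity -/

/-- the nonempty piece `ρ` of `N` lies in all pieces of `l` and its type is not in `T` -/
def Bg (T : Set (Tr C)) (N : St (C × ℕ)) (l : List Pr) (ρ : Pr) : Prop :=
  Vd (bn N) ρ ∧ (st (bn N) ρ).Nonempty ∧ (∀ π ∈ l, st (bn N) ρ ⊆ st (bn N) π) ∧
    ¬ InO T N (zl ρ) (st (bn N) ρ)

/-- the space of points at infinity of `N` -/
def Om (T : ℕ → Set (Tr C)) (N : St (C × ℕ)) : Set (Pr → Bool) :=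
  {w | w [] = true ∧ (∀ π, w π = true → Vd (bn N) π) ∧
    (∀ s π, w (s :: π) = true → w π = true) ∧
    (∀ (π : Pr) (S : List ℕ) (F : Ed) (x : Xr), w π = true → Vd (bn N) ((S, F, x, true) :: π) →
      (w ((S, F, x, true) :: π) = true ↔ w ((S, F, x, false) :: π) = false)) ∧
    ∀ l : List Pr, (∀ π ∈ l, w π = true) → ∀ i, ∃ ρ, Bg (T i) N l ρ}

/-- initial segments of branches; the last bit is the head -/
def pre (p : ℕ → Bool) : ℕ → List Bool
  | 0 => []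
  | m + 1 => p m :: pre p m

/-- the branches through a set of nodes -/
def Br (T : Set (List Bool)) : Set (ℕ → Bool) := {p | ∀ m, pre p m ∈ T}

/-- the types of the pieces of the structures in which only blocks of index less than `i` are
replaced -/
def TT (M : St (C × ℕ)) (B : List Bool → Set ℕ) (z : List Bool → List ℕ)
    (R : List Bool → St (C × ℕ)) (i : ℕ) : Set (Tr C) :=
  {t | ∃ σ : Set (List Bool), (∀ s ∈ σ, Encodable.encode s < i) ∧ ∃ π : Pr,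
    Vd (bn (rp M B z R σ)) π ∧
      t = (rp M B z R σ, zl π, st (bn (rp M B z R σ)) π)}

/-- the data of the decoding -/
structure DT (c0 : C) (n : Bd) (b : Rk) (M : St (C × ℕ)) (Sm : Pr → Prop)
    (D B : List Bool → Pr) (R : List Bool → St (C × ℕ)) : Prop where
  sch : Sch (bn M) Sm D B
  ra : RA c0 n b M (fun s => st (bn M) (B s)) (fun s => zl (B s)) R
  new : ∀ s, ¬ InO (TT M (fun s => st (bn M) (B s)) (fun s => zl (B s)) R (Encodable.encode s))
    (R s) (zl (B s)) (st (bn M) (B s))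

/-! ### the group generated by local automorphisms and swaps -/

/-- `f` is an automorphism which moves only points of one piece whose type is in `O` -/
def IsA (O : Set (Tr C)) (M : St (C × ℕ)) (f : Equiv.Perm ℕ) : Prop :=
  IsoH f M M ∧ ∃ π : Pr, Vd (bn M) π ∧ InO O M (zl π) (st (bn M) π) ∧
    ∀ x, x ∉ st (bn M) π → f x = x

/-- `f` exchanges two components whose type is in `O` -/
def IsS (O : Set (Tr C)) (M : St (C × ℕ)) (f : Equiv.Perm ℕ) : Prop :=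
  IsoH f M M ∧ (∀ x, f (f x) = x) ∧
    ∃ (π : Pr) (S : List ℕ) (F : Ed) (v v' : ℕ) (R R' : List ℕ),
    Vd (bn M) ((S, F, ([v], R), true) :: π) ∧ Vd (bn M) ((S, F, ([v'], R'), true) :: π) ∧
    Vc (bn M) (st (bn M) π) (S ++ zl π) F v ∧ Vc (bn M) (st (bn M) π) (S ++ zl π) F v' ∧
    v' ∉ st (bn M) ((S, F, ([v], R), true) :: π) ∧
    InO O M (S ++ zl π) (st (bn M) ((S, F, ([v], R), true) :: π)) ∧
    Swp (bn M) (st (bn M) π) (S ++ zl π) (st (bn M) ((S, F, ([v], R), true) :: π))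
      (st (bn M) ((S, F, ([v'], R'), true) :: π)) ∧
    f '' st (bn M) ((S, F, ([v], R), true) :: π) =
      st (bn M) ((S, F, ([v'], R'), true) :: π) ∧
    ∀ x, x ∉ st (bn M) ((S, F, ([v], R), true) :: π) →
      x ∉ st (bn M) ((S, F, ([v'], R'), true) :: π) → f x = x

/-- the group -/
def NG (O : Set (Tr C)) (M : St (C × ℕ)) : Subgroup (Equiv.Perm ℕ) :=
  Subgroup.closure {f | IsA O M f ∨ IsS O M f}

/-- moves of lists -/
def MvA (O : Set (Tr C)) (M : St (C × ℕ)) (l m : List ℕ) : Prop := ∃ f, IsA O M f ∧ l.map f = m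

/-- moves of lists -/
def MvS (O : Set (Tr C)) (M : St (C × ℕ)) (l m : List ℕ) : Prop := ∃ f, IsS O M f ∧ l.map f = m

/-- the small pieces of a structure -/
def SmO (O : Set (Tr C)) (M : St (C × ℕ)) (π : Pr) : Prop := InO O M (zl π) (st (bn M) π)

end

end Pool.Agent.CR
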