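import Pool.Agent.H71.CR.Basic

/-! Controlled sets and pieces under isomorphisms. -/

set_option autoImplicit false

open Set Pool.Agent.TK Pool.Agent.H71.VK

namespace Pool.Agent.CR

variable {c c' : Lf}

lemma map_symm_map (h : Equiv.Perm ℕ) (L : List ℕ) : (L.map h).map h.symm = L := by
  rw [List.map_map]
  conv_rhs => rw [← List.map_id L]
  exact List.map_congr_left fun a _ => by simp

lemma map_map_symm (h : Equiv.Perm ℕ) (L : List ℕ) : (L.map h.symm).map h = L := by
  rw [List.map_map]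
  conv_rhs => rw [← List.map_id L]
  exact List.map_congr_left fun a _ => by simp

lemma iso_symm {h : Equiv.Perm ℕ} (H : ∀ l : List ℕ, c' (l.map h) = c l) (l : List ℕ) :
    c (l.map h.symm) = c' l := by
  rw [← H, map_map_symm]

lemma zip_map2 (h : ℕ → ℕ) (x y : List ℕ) :
    (x.map h).zip (y.map h) = (x.zip y).map (Prod.map h h) := by
  rw [List.zip_map]

lemma cc_iso_aux (h : Equiv.Perm ℕ) (H : ∀ l : List ℕ, c' (l.map h) = c l) {L : List ℕ} {F : Ed}
    {U Z : Set ℕ} (hc : Cc c L F U Z) :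
    Cc c' (L.map h) (F.map (List.map h)) (h '' U) (h '' Z) := by
  have hmem : ∀ {A : Set ℕ} {a : ℕ}, a ∈ h '' A ↔ h.symm a ∈ A := by
    intro A a
    constructor
    · rintro ⟨b, hb, rfl⟩
      simpa using hb
    · intro hb
      exact ⟨_, hb, by simp⟩
  have hpair : ∀ q : List (ℕ × ℕ), q = (q.map (Prod.map h.symm h.symm)).map (Prod.map h h) := by
    intro q
    rw [List.map_map]
    conv_lhs => rw [← List.map_id q]
    exact List.map_congr_left fun z _ => by simp [Prod.map]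
  refine ⟨Set.image_mono hc.sub, ?_, ?_⟩
  · intro p hp hpl D hD
    rw [hpair p] at hpl ⊢
    rw [dg_map, ← List.map_append, pl_iso H] at hpl
    have h1 := hc.ctl (p.map (Prod.map h.symm h.symm)) (by
      intro z hz
      obtain ⟨w, hw, rfl⟩ := List.mem_map.1 hz
      exact ⟨hmem.1 (hp w hw).1, hmem.1 (hp w hw).2⟩) hpl (D.map h.symm) (by
      intro x hx
      obtain ⟨w, hw, rfl⟩ := List.mem_map.1 hx
      exact ⟨hmem.1 (hD w hw).1, fun h2 => (hD w hw).2 (hmem.2 h2)⟩)
    have h2 := (pl_iso H _).2 h1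
    rw [List.map_append, List.map_append, ← dg_map, ← dg_map, map_map_symm] at h2
    exact h2
  · intro e he d hd hdU hpl hex
    obtain ⟨e0, he0, rfl⟩ := List.mem_map.1 he
    have hd2 : d = (d.map h.symm).map h := (map_map_symm h d).symm
    rw [hd2, zip_map2, dg_map, ← List.map_append, pl_iso H] at hpl
    have h1 := hc.edg e0 he0 (d.map h.symm) (by simpa using hd) (by
      intro x hx
      obtain ⟨w, hw, rfl⟩ := List.mem_map.1 hx
      exact hmem.1 (hdU w hw)) hpl (by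
      obtain ⟨x, hx, hxZ⟩ := hex
      exact ⟨h.symm x, List.mem_map_of_mem hx, hmem.1 hxZ⟩)
    intro x hx
    exact hmem.2 (h1 _ (List.mem_map_of_mem hx))

lemma cc_iso (h : Equiv.Perm ℕ) (H : ∀ l : List ℕ, c' (l.map h) = c l) {L : List ℕ} {F : Ed}
    {U Z : Set ℕ} : Cc c' (L.map h) (F.map (List.map h)) (h '' U) (h '' Z) ↔ Cc c L F U Z := by
  refine ⟨fun hc => ?_, cc_iso_aux h H⟩
  have h1 := cc_iso_aux h.symm (iso_symm H) hc
  rw [map_symm_map, Equiv.symm_image_image, Equiv.symm_image_image, List.map_map] at h1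
  have e : F.map (List.map h.symm ∘ List.map h) = F := by
    conv_rhs => rw [← List.map_id F]
    exact List.map_congr_left fun e _ => map_symm_map h e
  rw [e] at h1
  exact h1

lemma ur_iso (h : Equiv.Perm ℕ) (P : Set ℕ) (L : List ℕ) :
    Ur (h '' P) (L.map h) = h '' Ur P L := by
  ext y
  constructor
  · rintro ⟨⟨x, hx, rfl⟩, h2⟩
    exact ⟨x, ⟨hx, fun h3 => h2 (List.mem_map_of_mem h3)⟩, rfl⟩
  · rintro ⟨x, ⟨hx, h2⟩, rfl⟩
    refine ⟨⟨x, hx, rfl⟩, fun h3 => h2 ?_⟩
    obtain ⟨w, hw, hwx⟩ := List.mem_map.1 h3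
    rwa [← h.injective hwx]

lemma cl_iso (h : Equiv.Perm ℕ) (H : ∀ l : List ℕ, c' (l.map h) = c l)
    (P : Set ℕ) (L : List ℕ) (F : Ed) (x : Xr) :
    cl c' (h '' P) (L.map h) (F.map (List.map h)) (x.1.map h, x.2.map h) =
      h '' cl c P L F x := by
  have hmem : ∀ {A : Set ℕ} {a : ℕ}, a ∈ h '' A ↔ h.symm a ∈ A := by
    intro A a
    constructor
    · rintro ⟨b, hb, rfl⟩
      simpa using hb
    · intro hb
      exact ⟨_, hb, by simp⟩
  have hc : ∀ (a : ℕ) (A : Set ℕ), h a ∈ h '' A ↔ a ∈ A := fun a A => by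
    rw [hmem, Equiv.symm_apply_apply]
  ext y
  constructor
  · rintro ⟨h1, h2⟩
    rw [hmem]
    refine ⟨?_, fun Z hZ hx => ?_⟩
    · rw [← hmem, ← ur_iso]
      exact h1
    · rw [← hmem]
      refine h2 (h '' Z) ?_ ?_
      · rw [ur_iso]
        exact (cc_iso h H).2 hZ
      · intro a ha
        obtain ⟨w, hw, rfl⟩ := List.mem_map.1 ha
        exact (hc _ _).2 (hx w hw)
  · intro h1
    rw [hmem] at h1
    obtain ⟨h2, h3⟩ := h1
    refine ⟨?_, fun Z hZ hx => ?_⟩
    · rw [ur_iso]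
      exact hmem.2 h2
    · have e : Z = h '' (h.symm '' Z) := by rw [Equiv.image_symm_image]
      rw [e, hmem]
      refine h3 (h.symm '' Z) ?_ ?_
      · rw [e, ur_iso] at hZ
        exact (cc_iso h H).1 hZ
      · intro a ha
        refine ⟨h a, hx _ (List.mem_map_of_mem ha), by simp⟩

lemma co_iso (h : Equiv.Perm ℕ) (H : ∀ l : List ℕ, c' (l.map h) = c l)
    (P : Set ℕ) (L : List ℕ) (F : Ed) (x : Xr) :
    co c' (h '' P) (L.map h) (F.map (List.map h)) (x.1.map h, x.2.map h) =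
      h '' co c P L F x := by
  unfold co
  rw [cl_iso h H]
  ext y
  simp only [Set.mem_ofPred_eq, Set.mem_image]
  constructor
  · rintro ⟨⟨y', h1, rfl⟩, h2, h3⟩
    refine ⟨y', ⟨h1, ?_, ?_⟩, rfl⟩
    · intro h4
      exact h2 (List.mem_map_of_mem h4)
    · intro h4
      exact h3 ⟨y', h4, rfl⟩
  · rintro ⟨y', ⟨h1, h2, h3⟩, rfl⟩
    refine ⟨⟨y', h1, rfl⟩, ?_, ?_⟩
    · intro h4
      obtain ⟨z, hz, hzy⟩ := List.mem_map.1 h4
      exact h2 (h.injective hzy ▸ hz)
    · rintro ⟨z, hz, hzy⟩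
      exact h3 (h.injective hzy ▸ hz)

lemma st_iso (h : Equiv.Perm ℕ) (H : ∀ l : List ℕ, c' (l.map h) = c l) :
    ∀ π : Pr, st c' (mp h π) = h '' st c π
  | [] => by
    change (univ : Set ℕ) = h '' univ
    rw [Set.image_univ, h.surjective.range_eq]
  | s :: π => by
    have ih := st_iso h H π
    obtain ⟨S, F, x, β⟩ := s
    rw [mp_cons]
    simp only
    cases β with
    | true =>
      rw [st_true, st_true, ih, zl_mp, ← List.map_append, cl_iso h H]
    | false =>
      rw [st_false, st_false, ih, zl_mp, ← List.map_append, co_iso h H]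

lemma rr_iso_aux (h : Equiv.Perm ℕ) (H : ∀ l : List ℕ, c' (l.map h) = c l) {P : Set ℕ}
    {L : List ℕ} {F : Ed} {x : Xr} (hR : Rr c P L F x) :
    Rr c' (h '' P) (L.map h) (F.map (List.map h)) (x.1.map h, x.2.map h) := by
  have hmem : ∀ {A : Set ℕ} {a : ℕ}, a ∈ h '' A ↔ h.symm a ∈ A := by
    intro A a
    constructor
    · rintro ⟨b, hb, rfl⟩
      simpa using hb
    · intro hb
      exact ⟨_, hb, by simp⟩
  have hpair : ∀ q : List (ℕ × ℕ), q = (q.map (Prod.map h.symm h.symm)).map (Prod.map h h) := by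
    intro q
    rw [List.map_map]
    conv_lhs => rw [← List.map_id q]
    exact List.map_congr_left fun z _ => by simp [Prod.map]
  unfold Rr
  rw [cl_iso h H, co_iso h H]
  refine ⟨?_, ?_⟩
  · intro a ha
    obtain ⟨w, hw, rfl⟩ := List.mem_map.1 ha
    exact ⟨w, hR.1 w hw, rfl⟩
  · intro q hq hpl D hD
    simp only at hpl ⊢
    rw [hpair q, ← List.map_append, dg_map, ← List.map_append, pl_iso H] at hpl
    have h1 := hR.2 (q.map (Prod.map h.symm h.symm)) (by
      intro z hz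
      obtain ⟨w, hw, rfl⟩ := List.mem_map.1 hz
      exact ⟨hmem.1 (hq w hw).1, hmem.1 (hq w hw).2⟩) hpl (D.map h.symm) (by
      intro y hy
      obtain ⟨w, hw, rfl⟩ := List.mem_map.1 hy
      exact hmem.1 (hD w hw))
    have h2 := (pl_iso H _).2 h1
    rw [List.map_append, List.map_append, ← dg_map, ← dg_map, map_map_symm, List.map_append,
      ← hpair q] at h2
    exact h2

lemma vd_iso_aux (h : Equiv.Perm ℕ) (H : ∀ l : List ℕ, c' (l.map h) = c l) :
    ∀ π : Pr, Vd c π → Vd c' (mp h π)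
  | [], _ => trivial
  | s :: π, hv => by
    obtain ⟨S, F, x, β⟩ := s
    obtain ⟨h1, h2, h3, h4, h5⟩ := vd_cons.1 hv
    simp only at h2 h3 h4 h5
    rw [mp_cons, vd_cons]
    simp only
    rw [st_iso h H π, zl_mp, ← List.map_append]
    refine ⟨vd_iso_aux h H π h1, ?_, ?_, ?_, rr_iso_aux h H h5⟩
    · intro a ha
      obtain ⟨w, hw, rfl⟩ := List.mem_map.1 ha
      exact ⟨w, h2 w hw, rfl⟩
    · intro e he a ha
      obtain ⟨e0, he0, rfl⟩ := List.mem_map.1 he
      obtain ⟨w, hw, rfl⟩ := List.mem_map.1 ha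
      rw [ur_iso]
      exact ⟨w, h3 e0 he0 w hw, rfl⟩
    · intro a ha
      obtain ⟨w, hw, rfl⟩ := List.mem_map.1 ha
      rw [ur_iso]
      exact ⟨w, h4 w hw, rfl⟩

lemma vd_iso (h : Equiv.Perm ℕ) (H : ∀ l : List ℕ, c' (l.map h) = c l) (π : Pr) :
    Vd c' (mp h π) ↔ Vd c π := by
  refine ⟨fun hv => ?_, vd_iso_aux h H π⟩
  have h1 := vd_iso_aux h.symm (iso_symm H) (mp h π) hv
  rw [mp_mp, mp_congr (g := id) (fun a _ => by simp), mp_id] at h1
  exact h1

/-- a piece is invariant under the automorphisms which fix its parameters -/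
lemma st_fix (h : Equiv.Perm ℕ) (H : ∀ l : List ℕ, c (l.map h) = c l) {π : Pr}
    (hp : ∀ a ∈ dl π, h a = a) : h '' st c π = st c π := by
  rw [← st_iso h H π, mp_fix hp]

/-- atoms under isomorphisms -/
lemma vc_iso (h : Equiv.Perm ℕ) (H : ∀ l : List ℕ, c' (l.map h) = c l) {P : Set ℕ}
    {L : List ℕ} {F : Ed} {v : ℕ} (hv : Vc c P L F v) :
    Vc c' (h '' P) (L.map h) (F.map (List.map h)) (h v) := by
  intro w hw
  have h1 := cl_iso h H P L F ([v], [])
  simp only [List.map_cons, List.map_nil] at h1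
  rw [h1] at hw
  obtain ⟨u, hu, rfl⟩ := hw
  have h2 := cl_iso h H P L F ([u], [])
  simp only [List.map_cons, List.map_nil] at h2
  rw [h2]
  exact ⟨v, hv u hu, rfl⟩

/-- exchangeable sets under isomorphisms -/
lemma swp_iso (h : Equiv.Perm ℕ) (H : ∀ l : List ℕ, c' (l.map h) = c l) {P : Set ℕ}
    {L : List ℕ} {Z Z' : Set ℕ} (hs : Swp c P L Z Z') :
    Swp c' (h '' P) (L.map h) (h '' Z) (h '' Z') := by
  have hmem : ∀ {A : Set ℕ} {a : ℕ}, a ∈ h '' A ↔ h.symm a ∈ A := by
    intro A a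
    constructor
    · rintro ⟨b, hb, rfl⟩
      simpa using hb
    · intro hb
      exact ⟨_, hb, by simp⟩
  have hpair : ∀ q : List (ℕ × ℕ), q = (q.map (Prod.map h.symm h.symm)).map (Prod.map h h) := by
    intro q
    rw [List.map_map]
    conv_lhs => rw [← List.map_id q]
    exact List.map_congr_left fun z _ => by simp [Prod.map]
  intro p q hp hq hpl hql D hD
  rw [hpair p, dg_map, ← List.map_append, pl_iso H] at hpl
  rw [hpair q, dg_map, ← List.map_append, pl_iso H] at hql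
  have h1 := hs (p.map (Prod.map h.symm h.symm)) (q.map (Prod.map h.symm h.symm)) (by
    intro z hz
    obtain ⟨w, hw, rfl⟩ := List.mem_map.1 hz
    exact ⟨hmem.1 (hp w hw).1, hmem.1 (hp w hw).2⟩) (by
    intro z hz
    obtain ⟨w, hw, rfl⟩ := List.mem_map.1 hz
    exact ⟨hmem.1 (hq w hw).1, hmem.1 (hq w hw).2⟩) hpl hql (D.map h.symm) (by
    intro x hx
    obtain ⟨w, hw, rfl⟩ := List.mem_map.1 hx
    obtain ⟨h3, h4, h5⟩ := hD w hw
    rw [ur_iso, hmem] at h3
    exact ⟨h3, fun h6 => h4 (hmem.2 h6), fun h6 => h5 (hmem.2 h6)⟩)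
  have h2 := (pl_iso H _).2 h1
  rw [List.map_append, List.map_append, List.map_append, ← dg_map, ← dg_map, map_map_symm,
    ← hpair p, ← hpair q] at h2
  exact h2

end Pool.Agent.CR
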