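import Pool.Agent.H71.CR.Iso

/-!
Statements of group B: types, sets of finite index, the contradiction CON, decisions, directions.
-/

set_option autoImplicit false

open Set Pool.Agent.TK Pool.Agent.H71.VK

namespace Pool.Agent.CR

/-! ### types and sets of finite index -/

/-- REP: finitely many types over a list, represented by tuples with the property `Q`. -/
def T_REP : Prop :=
  ∀ (n : Bd) (c : Lf), Lb n c → ∀ (L : List ℕ) (k : ℕ) (Q : List ℕ → Prop),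
    ∃ E : List (List ℕ), (∀ e ∈ E, Q e) ∧ ∀ x : List ℕ, x.length ≤ k → Q x →
      ∃ e ∈ E, e.length = x.length ∧ Pl c c (dg L ++ x.zip e)

/-- REX: representatives of closures exist. -/
def T_REX : Prop :=
  ∀ (n : Bd) (c : Lf), Lb n c → ∀ (P : Set ℕ) (L : List ℕ) (F : Ed) (X : List ℕ),
    (∀ a ∈ X, a ∈ Ur P L) → ∃ R : List ℕ, Rr c P L F (X, R)

/-- FXQ: finitely many classes of tuples of any length, together with parameters in `A`. -/
def T_FXQ : Prop :=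
  ∀ (n : Bd) (c : Lf), Lb n c → ∀ (Y A : Set ℕ), Fx n c Y A → ∀ (ζ : List ℕ) (k : ℕ)
    (Q : List ℕ → Prop), (∀ a ∈ ζ, a ∈ A) → (∀ x, Q x → ∀ a ∈ x, a ∈ A) →
    ∃ E : List (List ℕ), (∀ e ∈ E, Q e) ∧ ∀ x : List ℕ, x.length ≤ k → Q x →
      ∃ e ∈ E, SO c {y | y ∈ Y ∨ y ∈ ζ} x e

/-- FCT: a set has finitely many classes over `Y` if and only if it is controlled by a finite
list, which can be chosen in `Y`. -/
def T_FCT : Prop :=
  ∀ (n : Bd) (c : Lf), Lb n c → ∀ Y A : Set ℕ,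
    (Fx n c Y A → ∃ L : List ℕ, (∀ a ∈ L, a ∈ Y) ∧ ∀ x x' : List ℕ, x.length = x'.length →
      (∀ a ∈ x, a ∈ A) → (∀ a ∈ x', a ∈ A) → Pl c c (dg L ++ x.zip x') → SO c Y x x') ∧
    ((∃ L : List ℕ, ∀ x x' : List ℕ, x.length = x'.length →
      (∀ a ∈ x, a ∈ A) → (∀ a ∈ x', a ∈ A) → Pl c c (dg L ++ x.zip x') → SO c Y x x') →
      Fx n c Y A)

/-- FIA: the sets of finite index form an algebra which contains the finite sets. -/
def T_FIA : Prop :=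
  ∀ (n : Bd) (c : Lf), Lb n c →
    (∀ A, Fi n c A → Fi n c Aᶜ) ∧ (∀ A B, Fi n c A → Fi n c B → Fi n c (A ∩ B)) ∧
    ∀ A : Set ℕ, A.Finite → Fi n c A

/-- PFI: pieces have finite index. -/
def T_PFI : Prop :=
  ∀ (n : Bd) (c : Lf), Lb n c → ∀ π : Pr, Vd c π → Fi n c (st c π)

/-- FIX: sets of finite index are controlled in every set without finitely many points. -/
def T_FIX : Prop :=
  ∀ (n : Bd) (c : Lf), Lb n c → ∀ (P A : Set ℕ) (z : List ℕ), Fi n c A →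
    ∃ S : List ℕ, (∀ a ∈ S, a ∈ P) ∧
      Cc c (S ++ z) [] (Ur P (S ++ z)) {a | a ∈ Ur P (S ++ z) ∧ a ∈ A} ∧
      Cc c (S ++ z) [] (Ur P (S ++ z)) {a | a ∈ Ur P (S ++ z) ∧ a ∉ A}

/-! ### the contradiction -/

section
variable {n : Bd} {c : Lf} {Sm : Pr → Prop}

/-- all points of `w` lie in the piece and are mobile over `X` -/
def GS.Mb (G : GS n c Sm) (π : Pr) (X w : List ℕ) : Prop :=
  ∀ a ∈ w, a ∈ st c π ∧ ¬ G.sup (a :: X) ⊆ G.sup X

/-- `u` and `w` have independent supports over `X` -/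
def GS.In (G : GS n c Sm) (X u w : List ℕ) : Prop :=
  ∀ j, j ∈ G.sup (u ++ X) → j ∈ G.sup (w ++ X) → j ∈ G.sup X

/-- `w` has over `Y` the type of a tuple which is mobile over `Y` -/
def GS.Fr (G : GS n c Sm) (π : Pr) (Y w : List ℕ) : Prop :=
  ∃ w' : List ℕ, G.Mb π Y w' ∧ w.length = w'.length ∧ Pl c c (dg Y ++ w.zip w')

/-- saturated bases -/
structure GS.Bs (G : GS n c Sm) (π : Pr) (B : List ℕ) : Prop where
  vd : Vd c π
  dlB : dl π ⊆ B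
  uq : ∀ X : List ℕ, B ⊆ X → ∀ w w' : List ℕ, w.length = w'.length → G.Mb π X w →
    G.Mb π X w' → Pl c c (dg B ++ w.zip w') → Pl c c (dg X ++ w.zip w')
  sat : ∀ X : List ℕ, B ⊆ X → ∀ w : List ℕ, w.length ≤ n.2 → G.Mb π X w → G.Fr π B w
  mob : ∃ u, G.Mb π B [u]

/-- the pair `u, v` has over `B` the type of an independent pair of mobile tuples -/
def GS.TI (G : GS n c Sm) (π : Pr) (B u v : List ℕ) : Prop :=
  ∃ u' v' : List ℕ, G.Mb π B u' ∧ G.Mb π B v' ∧ G.In B u' v' ∧ u.length = u'.length ∧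
    v.length = v'.length ∧ Pl c c (dg B ++ (u ++ v).zip (u' ++ v'))

/-- indecomposable sets -/
def GS.Idc (G : GS n c Sm) (π : Pr) (B e : List ℕ) : Prop :=
  ∀ e1 e2 : List ℕ, e1 ≠ [] → e2 ≠ [] → (∀ x ∈ e1, x ∉ e2) →
    (∀ x, x ∈ e ↔ x ∈ e1 ∨ x ∈ e2) → ¬ G.TI π B e1 e2

/-- edges: indecomposable sets of mobile points -/
structure GS.Eg (G : GS n c Sm) (π : Pr) (B e : List ℕ) : Prop where
  mb : G.Mb π B e
  idc : G.Idc π B e
  nd : e.Nodup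
  ln : e.length ≤ n.2

/-- a base `B` with a list `S` which contains independent copies of all mobile tuples -/
structure GS.Bt (G : GS n c Sm) (π : Pr) (B S : List ℕ) : Prop where
  bs : G.Bs π B
  sub : B ⊆ S
  cop : ∀ D : List ℕ, D.length ≤ n.2 → G.Mb π B D → ∃ f : Fin (n.2 + 1) → List ℕ,
    (∀ j, G.Mb π B (f j) ∧ D.length = (f j).length ∧ Pl c c (dg B ++ D.zip (f j)) ∧
      ∀ x ∈ f j, x ∈ S) ∧ ∀ i j, i ≠ j → G.In B (f i) (f j)

end

/-- COP: copies of tuples. -/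
def T_COP : Prop :=
  ∀ (n : Bd) (c : Lf) (Sm : Pr → Prop) (G : GS n c Sm) (π : Pr) (B : List ℕ), dl π ⊆ B →
    ∀ (w : List ℕ) (T : Finset ℕ), ∃ p ∈ G.K, (∀ z ∈ B, p.1 z = z) ∧
      (∀ j ∈ G.sup B, p.2 j = j) ∧
      (∀ j ∈ G.sup (w.map p.1 ++ B), j ∉ G.sup B → j ∉ T) ∧
      Pl c c (dg B ++ w.zip (w.map p.1)) ∧ (G.Mb π B w → G.Mb π B (w.map p.1))

/-- MBI: independent tuples stay mobile. -/
def T_MBI : Prop :=
  ∀ (n : Bd) (c : Lf) (Sm : Pr → Prop) (G : GS n c Sm) (π : Pr) (X u w : List ℕ),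
    G.Mb π X w → G.In X u w → G.Mb π (u ++ X) w

/-- FAR: a mobile tuple has a copy which is mobile over a given list and over all smaller lists,
and independent of it. -/
def T_FAR : Prop :=
  ∀ (n : Bd) (c : Lf) (Sm : Pr → Prop) (G : GS n c Sm) (π : Pr) (B : List ℕ), dl π ⊆ B →
    ∀ w : List ℕ, G.Mb π B w → ∀ Y : List ℕ, ∃ w' : List ℕ, w.length = w'.length ∧
      Pl c c (dg B ++ w.zip w') ∧ G.Mb π B w' ∧ G.In B Y w' ∧
      ∀ X : List ℕ, B ⊆ X → X ⊆ Y ++ B → G.Mb π X w'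

/-- UNQ: the type of a mobile tuple is determined by its type over the representatives. -/
def T_UNQ : Prop :=
  ∀ (n : Bd) (c : Lf) (Sm : Pr → Prop) (G : GS n c Sm) (π : Pr), Vd c π →
    ∀ E : List (List ℕ), (∀ e ∈ E, ∀ a ∈ e, a ∈ st c π) →
    (∀ x : List ℕ, x.length ≤ n.2 → (∀ a ∈ x, a ∈ st c π) →
      ∃ e ∈ E, G.Gm (st c π) (zl π) x e) →
    ∀ B : List ℕ, dl π ⊆ B → E.flatten ⊆ B → ∀ X : List ℕ, B ⊆ X →
    ∀ w w' : List ℕ, w.length = w'.length → G.Mb π X w → G.Mb π X w' →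
      Pl c c (dg B ++ w.zip w') → Pl c c (dg X ++ w.zip w')

/-- SAT: saturated bases exist. -/
def T_SAT : Prop :=
  ∀ (n : Bd) (c : Lf) (Sm : Pr → Prop) (G : GS n c Sm) (π : Pr), Vd c π →
    ¬ G.Nn (st c π) →
    ∀ E : List (List ℕ), (∀ e ∈ E, ∀ a ∈ e, a ∈ st c π) →
    (∀ x : List ℕ, x.length ≤ n.2 → (∀ a ∈ x, a ∈ st c π) →
      ∃ e ∈ E, G.Gm (st c π) (zl π) x e) → ∃ B : List ℕ, G.Bs π B

/-- FRM: free tuples. (1) uniqueness, (2) mobile tuples are free over smaller lists, (3) free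
tuples are free over smaller lists, (4) sub-tuples. -/
def T_FRM : Prop :=
  ∀ (n : Bd) (c : Lf) (Sm : Pr → Prop) (G : GS n c Sm) (π : Pr) (B : List ℕ), G.Bs π B →
    (∀ Y : List ℕ, B ⊆ Y → ∀ w w' : List ℕ, w.length = w'.length → G.Fr π Y w → G.Fr π Y w' →
      Pl c c (dg B ++ w.zip w') → Pl c c (dg Y ++ w.zip w')) ∧
    (∀ X Y : List ℕ, B ⊆ Y → Y ⊆ X → ∀ w : List ℕ, w.length ≤ n.2 → G.Mb π X w →
      G.Fr π Y w) ∧
    (∀ X Y : List ℕ, B ⊆ Y → Y ⊆ X → ∀ w : List ℕ, w.length ≤ n.2 → G.Fr π X w →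
      G.Fr π Y w) ∧
    (∀ Y w u : List ℕ, u ⊆ w → G.Fr π Y w → G.Fr π Y u)

/-- TIA: a free tuple is type independent. -/
def T_TIA : Prop :=
  ∀ (n : Bd) (c : Lf) (Sm : Pr → Prop) (G : GS n c Sm) (π : Pr) (B : List ℕ), G.Bs π B →
    ∀ u v : List ℕ, u.length + v.length ≤ n.2 → (∃ X, B ⊆ X ∧ G.Mb π X u) →
      G.Fr π (u ++ B) v → G.TI π B u v

/-- TIB: (1) the type of a type independent pair is determined, (2) symmetry, (3) sub-tuples,
(4) dependence on the type only. -/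
def T_TIB : Prop :=
  ∀ (n : Bd) (c : Lf) (Sm : Pr → Prop) (G : GS n c Sm) (π : Pr) (B : List ℕ), G.Bs π B →
    (∀ u v u' v' : List ℕ, u.length = u'.length → v.length = v'.length → G.TI π B u v →
      G.TI π B u' v' → Pl c c (dg B ++ u.zip u') → Pl c c (dg B ++ v.zip v') →
      Pl c c (dg B ++ (u ++ v).zip (u' ++ v'))) ∧
    (∀ u v : List ℕ, G.TI π B u v → G.TI π B v u) ∧
    (∀ u v u' v' : List ℕ, u' ⊆ u → v' ⊆ v → G.TI π B u v → G.TI π B u' v') ∧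
    (∀ u v u' v' : List ℕ, u.length = u'.length → v.length = v'.length → G.TI π B u v →
      Pl c c (dg B ++ (u ++ v).zip (u' ++ v')) → G.TI π B u' v')

/-- TIC: associativity. -/
def T_TIC : Prop :=
  ∀ (n : Bd) (c : Lf) (Sm : Pr → Prop) (G : GS n c Sm) (π : Pr) (B : List ℕ), G.Bs π B →
    ∀ u v w : List ℕ, u.length + v.length + w.length ≤ n.2 → G.TI π B (u ++ v) w →
      G.TI π B u v → G.TI π B u (v ++ w) ∧ G.TI π B v w

/-- TID: regrouping. -/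
def T_TID : Prop :=
  ∀ (n : Bd) (c : Lf) (Sm : Pr → Prop) (G : GS n c Sm) (π : Pr) (B : List ℕ), G.Bs π B →
    ∀ u1 v1 u2 v2 : List ℕ, u1.length + v1.length + u2.length + v2.length ≤ n.2 →
      G.TI π B (u1 ++ v1) (u2 ++ v2) → G.TI π B u1 v1 → G.TI π B u2 v2 →
      G.TI π B (u1 ++ u2) (v1 ++ v2)

/-- MIN: a dependent pair contains an indecomposable set which meets both tuples. -/
def T_MIN : Prop :=
  ∀ (n : Bd) (c : Lf) (Sm : Pr → Prop) (G : GS n c Sm) (π : Pr) (B : List ℕ), G.Bs π B →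
    ∀ u v : List ℕ, u.length + v.length ≤ n.2 → (∃ X, B ⊆ X ∧ G.Mb π X (u ++ v)) →
      ¬ G.TI π B u v → ∃ e : List ℕ, e.Nodup ∧ e.length ≤ n.2 ∧ G.Idc π B e ∧
        (∀ x ∈ e, x ∈ u ∨ x ∈ v) ∧ (∃ x ∈ e, x ∈ u) ∧ ∃ x ∈ e, x ∈ v

/-- FRE: a mobile tuple which is not free over `C` is joined with `C` by an edge. -/
def T_FRE : Prop :=
  ∀ (n : Bd) (c : Lf) (Sm : Pr → Prop) (G : GS n c Sm) (π : Pr) (B : List ℕ), G.Bs π B →
    ∀ D C : List ℕ, D.length + C.length ≤ n.2 → G.Mb π B D → (∀ a ∈ C, a ∈ st c π) →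
      ¬ G.Fr π (C ++ B) D → ∃ e : List ℕ, G.Eg π B e ∧ (∀ x ∈ e, x ∈ D ∨ x ∈ C) ∧
        (∃ x ∈ e, x ∈ D) ∧ ∃ x ∈ e, x ∈ C

/-- ESU: the points of an edge have the same support. -/
def T_ESU : Prop :=
  ∀ (n : Bd) (c : Lf) (Sm : Pr → Prop) (G : GS n c Sm) (π : Pr) (B : List ℕ), G.Bs π B →
    ∀ e : List ℕ, G.Eg π B e → ∀ a ∈ e, G.sup (a :: B) = G.sup (e ++ B)

/-- SEP: tuples which are not joined with `C` by edges have the same type over `C` if they have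
the same type over the base. -/
def T_SEP : Prop :=
  ∀ (n : Bd) (c : Lf) (Sm : Pr → Prop) (G : GS n c Sm) (π : Pr) (B : List ℕ), G.Bs π B →
    ∀ x x' C : List ℕ, x.length = x'.length → G.Mb π B x → G.Mb π B x' →
      (∀ a ∈ C, a ∈ st c π) →
      (∀ e : List ℕ, G.Eg π B e → (∃ a ∈ e, a ∈ C) → ∀ a ∈ e, a ∉ x ∧ a ∉ x') →
      Pl c c (dg B ++ x.zip x') → Pl c c (dg C ++ (dg B ++ x.zip x'))

/-- SP2: pairs of tuples which are not joined by edges have the same type over the base if the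
tuples have the same types over the base. -/
def T_SP2 : Prop :=
  ∀ (n : Bd) (c : Lf) (Sm : Pr → Prop) (G : GS n c Sm) (π : Pr) (B : List ℕ), G.Bs π B →
    ∀ x1 x2 y1 y2 : List ℕ, x1.length = y1.length → x2.length = y2.length → G.Mb π B x1 →
      G.Mb π B x2 → G.Mb π B y1 → G.Mb π B y2 →
      (∀ e : List ℕ, G.Eg π B e → (∃ a ∈ e, a ∈ x1) → ∀ a ∈ e, a ∉ x2) →
      (∀ e : List ℕ, G.Eg π B e → (∃ a ∈ e, a ∈ y1) → ∀ a ∈ e, a ∉ y2) →
      Pl c c (dg B ++ x1.zip y1) → Pl c c (dg B ++ x2.zip y2) →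
      Pl c c (dg B ++ (x1 ++ x2).zip (y1 ++ y2))

/-- BTX: bases with copies exist. -/
def T_BTX : Prop :=
  ∀ (n : Bd) (c : Lf) (Sm : Pr → Prop) (G : GS n c Sm) (π : Pr) (B : List ℕ), G.Bs π B →
    ∃ S : List ℕ, G.Bt π B S

/-- TED: tuples with the type of an edge which contain a point far from `S` have one support. -/
def T_TED : Prop :=
  ∀ (n : Bd) (c : Lf) (Sm : Pr → Prop) (G : GS n c Sm) (π : Pr) (B S : List ℕ),
    G.Bt π B S → ∀ e d : List ℕ, G.Eg π B e → G.In B S e → d.length = e.length →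
    (∀ a ∈ d, a ∈ st c π) → Pl c c (dg S ++ d.zip e) → ∀ a ∈ d, G.Mb π B [a] →
    G.In B S [a] → ∀ b ∈ d, G.Mb π B [b] ∧ G.sup (b :: B) = G.sup (a :: B)

section
variable {n : Bd} {c : Lf} {Sm : Pr → Prop}

/-- the situation at the end: `S` is a base with copies, `L` consists of its points in the piece
and of the control list, `F` represents the types of the edges far from `S` -/
structure GS.Sit (G : GS n c Sm) (π : Pr) (B S L : List ℕ) (F : Ed) : Prop where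
  bt : G.Bt π B S
  L1 : ∀ a : ℕ, a ∈ L ↔ (a ∈ S ∧ a ∈ st c π)
  F1 : ∀ e ∈ F, G.Eg π B e ∧ G.In B S e
  F2 : ∀ e : List ℕ, G.Eg π B e → G.In B S e → ∃ e' ∈ F, e'.length = e.length ∧
    Pl c c (dg S ++ e.zip e')

/-- the points joined with `v` -/
def Kp (c : Lf) (π : Pr) (L : List ℕ) (F : Ed) (v : ℕ) : Set ℕ :=
  {w | Relation.ReflTransGen (fun x y => ∃ e ∈ F, ∃ d : List ℕ, d.length = e.length ∧
    (∀ z ∈ d, z ∈ Ur (st c π) (L ++ zl π)) ∧ Pl c c (dg (L ++ zl π) ++ d.zip e) ∧ x ∈ d ∧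
    y ∈ d) v w}

end

/-- KPA: the component of a far mobile point is controlled, its points have the same support. -/
def T_KPA : Prop :=
  ∀ (n : Bd) (c : Lf) (Sm : Pr → Prop) (G : GS n c Sm) (π : Pr) (B S L : List ℕ) (F : Ed),
    G.Sit π B S L F → ∀ v : ℕ, G.Mb π B [v] → G.In B S [v] →
    (∀ w ∈ Kp c π L F v, w ∈ Ur (st c π) (L ++ zl π) ∧ G.Mb π B [w] ∧
      G.sup (w :: B) = G.sup (v :: B)) ∧
    (∀ e : List ℕ, G.Eg π B e → (∃ a ∈ e, a ∈ Kp c π L F v) → ∀ a ∈ e, a ∈ Kp c π L F v) ∧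
    Cc c (L ++ zl π) F (Ur (st c π) (L ++ zl π)) (Kp c π L F v) ∧
    cl c (st c π) (L ++ zl π) F ([v], []) = Kp c π L F v ∧
    Vc c (st c π) (L ++ zl π) F v

/-- KPB: two components of far mobile points can be exchanged. -/
def T_KPB : Prop :=
  ∀ (n : Bd) (c : Lf) (Sm : Pr → Prop) (G : GS n c Sm) (π : Pr) (B S L : List ℕ) (F : Ed),
    G.Sit π B S L F → ∀ v v' : ℕ, G.Mb π B [v] → G.In B S [v] → G.Mb π B [v'] →
    G.In B S [v'] → v' ∉ Kp c π L F v →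
    Swp c (st c π) (L ++ zl π) (Kp c π L F v) (Kp c π L F v')

/-- STX: the situation exists. -/
def T_STX : Prop :=
  ∀ (n : Bd) (c : Lf) (Sm : Pr → Prop) (G : GS n c Sm) (π : Pr) (B : List ℕ), G.Bs π B →
    ∃ (S L : List ℕ) (F : Ed), G.Sit π B S L F

/-- FNL: the situation is contradictory. -/
def T_FNL : Prop :=
  ∀ (n : Bd) (c : Lf) (Sm : Pr → Prop) (G : GS n c Sm) (π : Pr) (B S L : List ℕ) (F : Ed),
    G.Sit π B S L F → False

/-- CON: no good piece has finitely many germs. -/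
def T_CON : Prop :=
  ∀ (n : Bd) (c : Lf) (Sm : Pr → Prop) (G : GS n c Sm) (π : Pr), Vd c π →
    ¬ G.Nn (st c π) → ∀ E : List (List ℕ), (∀ e ∈ E, ∀ a ∈ e, a ∈ st c π) →
    ¬ ∀ x : List ℕ, x.length ≤ n.2 → (∀ a ∈ x, a ∈ st c π) →
      ∃ e ∈ E, G.Gm (st c π) (zl π) x e

/-! ### decisions and the scheme -/

/-- DEC: sets of finite index are decided by a good step. -/
def T_DEC : Prop :=
  ∀ (n : Bd) (c : Lf) (Sm : Pr → Prop) (G : GS n c Sm) (π : Pr), Vd c π →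
    ¬ G.Nn (st c π) → ∀ A : Set ℕ, Fi n c A →
    ∃ s : Stp, Vd c (s :: π) ∧ ¬ G.Nn (st c (s :: π)) ∧
      (st c (s :: π) ⊆ A ∨ Disjoint (st c (s :: π)) A)

/-- ULT: in an atom the ideal is prime for the sets of finite index. -/
def T_ULT : Prop :=
  ∀ (n : Bd) (c : Lf) (Sm : Pr → Prop) (G : GS n c Sm) (π : Pr), Vd c π →
    ¬ G.Nn (st c π) →
    (∀ (σ : Pr) (S : List ℕ) (F : Ed) (x : Xr), Vd c ((S, F, x, true) :: (σ ++ π)) →
      G.Nn (st c ((S, F, x, true) :: (σ ++ π))) ∨ G.Nn (st c ((S, F, x, false) :: (σ ++ π)))) →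
    ∀ A : Set ℕ, Fi n c A → G.Nn (st c π ∩ A) ∨ G.Nn (st c π \ A)

/-- AVO: good pieces contain good pieces which avoid all parameters. -/
def T_AVO : Prop :=
  ∀ (n : Bd) (c : Lf) (Sm : Pr → Prop) (G : GS n c Sm) (π : Pr),
    Vd c π → ¬ G.Nn (st c π) → ∀ Z : List ℕ, ∃ σ : Pr, Vd c (σ ++ π) ∧
      ¬ G.Nn (st c (σ ++ π)) ∧ (∀ a ∈ Z, a ∉ st c (σ ++ π)) ∧
      ∀ a ∈ dl (σ ++ π), a ∉ st c (σ ++ π)

/-- DC2: a good piece contains a good piece which decides a given piece. -/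
def T_DC2 : Prop :=
  ∀ (n : Bd) (c : Lf) (Sm : Pr → Prop) (G : GS n c Sm) (π ρ : Pr), Vd c π → Vd c ρ →
    ¬ G.Nn (st c π) → ∃ σ : Pr, Vd c (σ ++ π) ∧ ¬ G.Nn (st c (σ ++ π)) ∧
      (st c (σ ++ π) ⊆ st c ρ ∨ Disjoint (st c (σ ++ π)) (st c ρ))

/-- good pieces can be split -/
def SpG (n : Bd) (c : Lf) (Sm : Pr → Prop) (G : GS n c Sm) : Prop :=
  ∀ π : Pr, Vd c π → ¬ G.Nn (st c π) → ∃ (σ : Pr) (S : List ℕ) (F : Ed) (x : Xr),
    Vd c ((S, F, x, true) :: (σ ++ π)) ∧ ¬ G.Nn (st c ((S, F, x, true) :: (σ ++ π))) ∧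
    ¬ G.Nn (st c ((S, F, x, false) :: (σ ++ π)))

/-- NOD: the node of the scheme. -/
def T_NOD : Prop :=
  ∀ (n : Bd) (c : Lf) (Sm : Pr → Prop) (G : GS n c Sm), SpG n c Sm G → ∀ π : Pr,
    Vd c π → ¬ G.Nn (st c π) → ∀ (Z : List ℕ) (ρ : Pr), Vd c ρ →
    ∃ f : Fin 3 → Pr, ∀ i, (∃ σ : Pr, f i = σ ++ π) ∧ Vd c (f i) ∧ ¬ G.Nn (st c (f i)) ∧
      (∀ a ∈ Z, a ∉ st c (f i)) ∧ (∀ j, ∀ a ∈ dl (f i), a ∉ st c (f j)) ∧
      (∀ j, i ≠ j → Disjoint (st c (f i)) (st c (f j))) ∧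
      (st c (f i) ⊆ st c ρ ∨ Disjoint (st c (f i)) (st c ρ))

/-- SCH: the Cantor scheme. -/
def T_SCH : Prop :=
  ∀ (n : Bd) (c : Lf) (Sm : Pr → Prop) (G : GS n c Sm), SpG n c Sm G →
    ∃ D B : List Bool → Pr, Sch c Sm D B

/-! ### directions -/

/-- directions: ultrafilters of the algebra of the sets of finite index without finite sets -/
structure Dirn (n : Bd) (c : Lf) (U : Set (Set ℕ)) : Prop where
  fi : ∀ A ∈ U, Fi n c A
  up : ∀ A ∈ U, ∀ B, Fi n c B → A ⊆ B → B ∈ U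
  int : ∀ A ∈ U, ∀ B ∈ U, A ∩ B ∈ U
  ult : ∀ A, Fi n c A → A ∈ U ∨ Aᶜ ∈ U
  fin : ∀ A ∈ U, A.Infinite

/-- finitely many germs at `U` -/
def FGm (n : Bd) (c : Lf) (U : Set (Set ℕ)) : Prop :=
  ∃ E : List (List ℕ), ∀ x : List ℕ, x.length ≤ n.2 → ∃ e ∈ E, ∃ A ∈ U, SO c A x e

/-- the direction of a piece -/
def Dr {n : Bd} {c : Lf} {Sm : Pr → Prop} (G : GS n c Sm) (π : Pr) : Set (Set ℕ) :=
  {A | Fi n c A ∧ G.Nn (st c π \ A)}

/-- a good piece which gives a direction with infinitely many germs; all members of the direction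
contain good pieces -/
structure DG (n : Bd) (c : Lf) (Sm : Pr → Prop) (G : GS n c Sm) (π : Pr) : Prop where
  vd : Vd c π
  good : ¬ G.Nn (st c π)
  dir : Dirn n c (Dr G π)
  germ : ¬ FGm n c (Dr G π)
  pc : ∀ A ∈ Dr G π, ∃ s : Stp, Vd c (s :: π) ∧ ¬ G.Nn (st c (s :: π)) ∧ st c (s :: π) ⊆ A

/-- FGZ: germs together with parameters. -/
def T_FGZ : Prop :=
  ∀ (n : Bd) (c : Lf), Lb n c → ∀ U : Set (Set ℕ), Dirn n c U → FGm n c U →
    ∀ (z : List ℕ) (Q : List ℕ → Prop), ∃ E : List (List ℕ), (∀ e ∈ E, Q e) ∧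
      ∀ x : List ℕ, x.length ≤ n.2 → Q x → ∃ e ∈ E, ∃ A ∈ U, SO c {y | y ∈ A ∨ y ∈ z} x e

/-- DIR: good pieces can be split or there is a direction with infinitely many germs. -/
def T_DIR : Prop :=
  ∀ (n : Bd) (c : Lf) (Sm : Pr → Prop) (G : GS n c Sm), SpG n c Sm G ∨ ∃ π, DG n c Sm G π

/-- every direction has at most `m` germs -/
def AtM (n : Bd) (c : Lf) (m : ℕ) : Prop :=
  ∀ U, Dirn n c U → ∀ f : Fin (m + 1) → List ℕ, (∀ i, (f i).length ≤ n.2) →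
    (∀ i j, (f i).length = (f j).length) → ∃ i j, i ≠ j ∧ ∃ A ∈ U, SO c A (f i) (f j)

/-- NFG: at most `m` germs are finitely many germs. -/
def T_NFG : Prop :=
  ∀ (n : Bd) (c : Lf) (m : ℕ), AtM n c m → ∀ U, Dirn n c U → FGm n c U

/-- WFG: structures of finite width have finitely many germs at every direction. -/
def T_WFG : Prop :=
  ∀ (n : Bd) (c : Lf) (k : ℕ), Lb n c → Wd n c k → ∀ U, Dirn n c U → FGm n c U

end Pool.Agent.CR
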