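import Pool.Agent.H71.CR.Iso

/-!
Statements of group C: structures, games, replacement.
-/

set_option autoImplicit false

open Set Pool.Agent.TK Pool.Agent.H71.VK

namespace Pool.Agent.CR

/-- CLF: the closure is the union of the closures in finite subsets. -/
def T_CLF : Prop :=
  ∀ (c : Lf) (P : Set ℕ) (L : List ℕ) (F : Ed) (x : Xr), (∀ a ∈ x.1, a ∈ Ur P L) → ∀ y : ℕ,
    y ∈ cl c P L F x ↔ ∃ W : List ℕ, (∀ a ∈ W, a ∈ Ur P L) ∧ (∀ a ∈ x.1, a ∈ W) ∧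
      y ∈ cl c (ms W) L F x

/-- CLT: closures in finite sets are determined by the labels. -/
def T_CLT : Prop :=
  ∀ (c c' : Lf) (p : List (ℕ × ℕ)), (∀ z ∈ p, ∀ w ∈ p, (z.1 = w.1 ↔ z.2 = w.2)) → Pl c c' p →
    ∀ (h : ℕ → ℕ) (W L : List ℕ) (F : Ed) (x : Xr), (∀ a ∈ W, (a, h a) ∈ p) →
    (∀ a ∈ L, (a, h a) ∈ p) → (∀ e ∈ F, ∀ a ∈ e, (a, h a) ∈ p) → (∀ a ∈ x.1, (a, h a) ∈ p) →
    ∀ z ∈ p, (z.1 ∈ cl c (ms W) L F x ↔
      z.2 ∈ cl c' (ms (W.map h)) (L.map h) (F.map (List.map h)) (x.1.map h, x.2.map h))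

/-- MEM: membership in pieces is preserved in positions of rank `om2`. -/
def T_MEM (C : Type) : Prop :=
  ∀ (M M' : St (C × ℕ)) (π : Pr) (h : ℕ → ℕ) (p : List (ℕ × ℕ)), bf M M' univ univ om2 p →
    (∀ a ∈ dl π, (a, h a) ∈ p) →
    (Vd (bn M) π ↔ Vd (bn M') (mp h π)) ∧
    ∀ q ∈ p, (q.1 ∈ st (bn M) π ↔ q.2 ∈ st (bn M') (mp h π))

/-- FBP: equivalent parameters define equivalent pieces. -/
def T_FBP (C : Type) : Prop :=
  ∀ (M M' : St (C × ℕ)) (π : Pr) (h : ℕ → ℕ) (p : List (ℕ × ℕ)) (r : Rk),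
    bf M M' univ univ (Sh om2 r) p → (∀ a ∈ dl π, (a, h a) ∈ p) →
    FB r M (zl π) (st (bn M) π) M' (zl (mp h π)) (st (bn M') (mp h π))

/-- IOT: isomorphisms respect the types of pieces. -/
def T_IOT (C : Type) : Prop :=
  ∀ (M N : St (C × ℕ)) (h : Equiv.Perm ℕ) (π : Pr), IsoH h M N →
    (∀ l : List ℕ, bn N (l.map h) = bn M l) ∧
    FI M (zl π) (st (bn M) π) N (zl (mp h π)) (st (bn N) (mp h π)) ∧
    (∀ O : Set (Tr C), InO O M (zl π) (st (bn M) π) ↔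
      InO O N (zl (mp h π)) (st (bn N) (mp h π)))

/-- PSE: extension of positions. -/
def T_PSE (C : Type) : Prop :=
  ∀ (ι : Type) (c0 : C) (n : Bd) (b : Rk) (M : St (C × ℕ)) (B : ι → Set ℕ) (z : ι → List ℕ)
    (R : ι → St (C × ℕ)), RA c0 n b M B z R → ∀ (Δ : Set ι),
    (∀ k : List ℕ, (∀ x ∈ k, ∀ i ∈ Δ, x ∉ B i) → Ps M B z R Δ b (dg k)) ∧
    (∀ (r s : Rk) (p : List (ℕ × ℕ)), RLe (C × ℕ) r s → Ps M B z R Δ s p → Ps M B z R Δ r p) ∧
    (∀ (r : Rk) (p p' : List (ℕ × ℕ)), (∀ q ∈ p', q ∈ p) → Ps M B z R Δ r p →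
      Ps M B z R Δ r p') ∧
    (∀ (r : Rk) (p : List (ℕ × ℕ)) (x : ℕ), Ps M B z R Δ r p → (∀ i ∈ Δ, x ∉ B i) →
      Ps M B z R Δ r ((x, x) :: p)) ∧
    ∀ (f : ℕ → Rk) (p : List (ℕ × ℕ)), Ps M B z R Δ (Rk.sup f) p → ∀ m,
      (∀ a, ∃ a', Ps M B z R Δ (f m) ((a, a') :: p)) ∧
      ∀ a', ∃ a, Ps M B z R Δ (f m) ((a, a') :: p)

/-- RPX: every list can be answered. -/
def T_RPX (C : Type) : Prop :=
  ∀ (ι : Type) (c0 : C) (n : Bd) (b : Rk) (M : St (C × ℕ)) (B : ι → Set ℕ) (z : ι → List ℕ)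
    (R : ι → St (C × ℕ)), RA c0 n b M B z R → ∀ (T : Set ι) (l : List ℕ),
    ∃ q : List (ℕ × ℕ), q.map Prod.fst = l ∧ Ps M B z R T Rk.zero q

/-- RPL: the labels of the replaced structure can be computed with every answer. -/
def T_RPL (C : Type) : Prop :=
  ∀ (ι : Type) (c0 : C) (n : Bd) (b : Rk) (M : St (C × ℕ)) (B : ι → Set ℕ) (z : ι → List ℕ)
    (R : ι → St (C × ℕ)), RA c0 n b M B z R → ∀ (T : Set ι) (q : List (ℕ × ℕ)),
    Ps M B z R T Rk.zero q → (rp M B z R T).2 (q.map Prod.fst) = M.2 (q.map Prod.snd)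

/-- RPB: facts on the replaced structure. -/
def T_RPB (C : Type) : Prop :=
  ∀ (ι : Type) (c0 : C) (n : Bd) (b : Rk) (M : St (C × ℕ)) (B : ι → Set ℕ) (z : ι → List ℕ)
    (R : ι → St (C × ℕ)), RA c0 n b M B z R → ∀ T : Set ι,
    BV c0 n (rp M B z R T) ∧
    (∀ l : List ℕ, (∀ x ∈ l, ∀ i ∈ T, x ∉ B i) → (rp M B z R T).2 l = M.2 l) ∧
    ∀ i ∈ T, ∀ l : List ℕ, (∀ x ∈ l, x ∈ B i ∨ x ∈ z i) → (rp M B z R T).2 l = (R i).2 l

/-- COM: the composition lemma. -/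
def T_COM (C : Type) : Prop :=
  ∀ (ι : Type) (c0 : C) (n : Bd) (b : Rk) (M : St (C × ℕ)) (B : ι → Set ℕ) (z : ι → List ℕ)
    (R : ι → St (C × ℕ)), RA c0 n b M B z R → ∀ (T T' : Set ι), T' ⊆ T →
    ∀ (r : Rk) (p : List (ℕ × ℕ)), Ps M B z R (T \ T') r p →
      bf (rp M B z R T) (rp M B z R T') univ univ r p

/-- RP0: nothing is replaced; and the replaced structure depends on the replaced blocks only. -/
def T_RP0 (C : Type) : Prop :=
  ∀ (ι : Type) (M : St (C × ℕ)) (B : ι → Set ℕ) (z : ι → List ℕ) (R R' : ι → St (C × ℕ)),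
    rp M B z R ∅ = M ∧ ∀ T : Set ι, (∀ i ∈ T, R i = R' i) → (∀ i ∈ T, ∀ j ∈ T, i ≠ j →
      Disjoint (B i) (B j)) → rp M B z R T = rp M B z R' T

/-- MEX: replacement stays in the class. -/
def T_MEX (C : Type) [MeasurableSpace C] : Prop :=
  ∀ (ι : Type) (c0 : C) (n : Bd) (b : Rk) (X : Set (St (C × ℕ))), Hy c0 n b X → ∀ M ∈ X,
    ∀ (B : ι → Set ℕ) (z : ι → List ℕ) (R : ι → St (C × ℕ)), RA c0 n b M B z R →
    ∀ T : Set ι, rp M B z R T ∈ X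

/-- MES: the replaced structure depends on the set of the replaced blocks in a Borel way. -/
def T_MES (C : Type) [MeasurableSpace C] : Prop :=
  ∀ (ι : Type) [Countable ι] (c0 : C) (n : Bd) (b : Rk) (M : St (C × ℕ)) (B : ι → Set ℕ)
    (z : ι → List ℕ) (R : ι → St (C × ℕ)), RA c0 n b M B z R →
    ∀ φ : (ℕ → Bool) → Set ι, (∀ i, MeasurableSet {y | i ∈ φ y}) →
      Measurable (fun y => rp M B z R (φ y))

/-- BLK: the type of a replaced block. -/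
def T_BLK (C : Type) : Prop :=
  ∀ (ι : Type) (c0 : C) (n : Bd) (b : Rk) (M : St (C × ℕ)) (B : ι → Set ℕ) (z : ι → List ℕ)
    (R : ι → St (C × ℕ)), RA c0 n b M B z R → ∀ (T : Set ι), ∀ i ∈ T,
    FI (rp M B z R T) (z i) (B i) (R i) (z i) (B i)

/-- INV: presentations which avoid the blocks define the same sets if the blocks are not split. -/
def T_INV (C : Type) : Prop :=
  ∀ (ι : Type) (c0 : C) (n : Bd) (b : Rk) (M : St (C × ℕ)) (B : ι → Set ℕ) (z : ι → List ℕ)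
    (R : ι → St (C × ℕ)), RA c0 n b M B z R → ∀ (T : Set ι) (π : Pr),
    (∀ a ∈ dl π, ∀ i ∈ T, a ∉ B i) →
    (Vd (bn (rp M B z R T)) π ↔ Vd (bn M) π) ∧
    (∀ x, (∀ i ∈ T, x ∉ B i) → (x ∈ st (bn (rp M B z R T)) π ↔ x ∈ st (bn M) π)) ∧
    ((∀ i ∈ T, B i ⊆ st (bn M) π ∨ Disjoint (B i) (st (bn M) π)) →
      st (bn (rp M B z R T)) π = st (bn M) π)

/-- TYP: a piece which misses the additional blocks is isomorphic to a piece of the structure in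
which they are not replaced. -/
def T_TYP (C : Type) : Prop :=
  ∀ (ι : Type) (c0 : C) (n : Bd) (b : Rk) (M : St (C × ℕ)) (B : ι → Set ℕ) (z : ι → List ℕ)
    (R : ι → St (C × ℕ)), RA c0 n b M B z R → ∀ (T T' : Set ι), T' ⊆ T → ∀ π : Pr,
    Vd (bn (rp M B z R T)) π →
    (∀ i ∈ T, i ∉ T' → Disjoint (B i) (st (bn (rp M B z R T)) π)) →
    ∃ π' : Pr, Vd (bn (rp M B z R T')) π' ∧
      st (bn (rp M B z R T')) π' = st (bn (rp M B z R T)) π ∧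
      FI (rp M B z R T) (zl π) (st (bn (rp M B z R T)) π)
        (rp M B z R T') (zl π') (st (bn (rp M B z R T')) π')

/-- DCD: pieces of the replaced structure are decided where pieces of `M` are decided. -/
def T_DCD (C : Type) : Prop :=
  ∀ (ι : Type) (c0 : C) (n : Bd) (b : Rk) (M : St (C × ℕ)) (B : ι → Set ℕ) (z : ι → List ℕ)
    (R : ι → St (C × ℕ)), RA c0 n b M B z R → ∀ (T : Set ι) (π : Pr),
    Vd (bn (rp M B z R T)) π → ∃ π' : Pr, Vd (bn M) π' ∧ ∀ Q : Set ℕ,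
      (∀ i ∈ T, B i ⊆ Q ∨ Disjoint (B i) Q) →
      (Q ⊆ st (bn M) π' → Q ⊆ st (bn (rp M B z R T)) π) ∧
      (Disjoint Q (st (bn M) π') → Disjoint Q (st (bn (rp M B z R T)) π))

/-- EXN: a big triple has equivalent triples of new type on the same set. -/
def T_EXN (C : Type) : Prop :=
  ∀ (c0 : C) (n : Bd) (b : Rk) (M : St (C × ℕ)) (z : List ℕ) (P : Set ℕ), BV c0 n M →
    RLe (C × ℕ) (Rk.lim (Rk.lim om2)) b → (∀ a ∈ z, a ∉ P) → ¬ sml c0 n b M z P →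
    ∀ T : Set (Tr C), T.Countable → ∃ R : St (C × ℕ), BV c0 n R ∧ FB b M z P R z P ∧
      ¬ InO T R z P

/-- CTB: countably many types of small pieces. -/
def T_CTB (C : Type) : Prop :=
  ∀ (c0 : C) (n : Bd) (X : Set (St (C × ℕ))), (∀ M ∈ X, BV c0 n M) → TC X → ∀ b : Rk,
    ∃ O : Set (Tr C), O.Countable ∧ ∀ M ∈ X, ∀ π : Pr, Vd (bn M) π →
      sml c0 n b M (zl π) (st (bn M) π) → InO O M (zl π) (st (bn M) π)

/-- FNC: the atoms when some of them are replaced. -/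
def T_FNC (C : Type) : Prop :=
  ∀ (c0 : C) (n : Bd) (b : Rk) (M : St (C × ℕ)) (π : Pr) (S : List ℕ) (F : Ed) (v : ℕ → ℕ)
    (Q : ℕ → List ℕ) (R : ℕ → St (C × ℕ)),
    (∀ i, Vd (bn M) ((S, F, ([v i], Q i), true) :: π)) →
    (∀ i, Vc (bn M) (st (bn M) π) (S ++ zl π) F (v i)) →
    RA c0 n b M (fun i => st (bn M) ((S, F, ([v i], Q i), true) :: π)) (fun _ => S ++ zl π) R →
    (∀ i, ∀ a ∈ dl π, a ∉ st (bn M) ((S, F, ([v i], Q i), true) :: π)) →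
    (∀ i, ∀ e ∈ F, ∀ a ∈ e, a ∉ st (bn M) ((S, F, ([v i], Q i), true) :: π)) →
    ∀ T : Set ℕ,
      Vd (bn (rp M (fun i => st (bn M) ((S, F, ([v i], Q i), true) :: π))
        (fun _ => S ++ zl π) R T)) π ∧
      st (bn (rp M (fun i => st (bn M) ((S, F, ([v i], Q i), true) :: π))
        (fun _ => S ++ zl π) R T)) π = st (bn M) π ∧
      ∀ i, ∀ x ∈ st (bn M) ((S, F, ([v i], Q i), true) :: π),
        cl (bn (rp M (fun i => st (bn M) ((S, F, ([v i], Q i), true) :: π))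
          (fun _ => S ++ zl π) R T)) (st (bn M) π) (S ++ zl π) F ([x], []) =
          st (bn M) ((S, F, ([v i], Q i), true) :: π)

/-- FNB: only finitely many big atoms. -/
def T_FNB (C : Type) [MeasurableSpace C] : Prop :=
  ∀ (c0 : C) (n : Bd) (b : Rk) (X : Set (St (C × ℕ))), Hy c0 n b X → ∀ M ∈ X,
    ∀ (π : Pr) (S : List ℕ) (F : Ed), Vd (bn M) π →
    {D : Set ℕ | ∃ (v : ℕ) (R : List ℕ), Vd (bn M) ((S, F, ([v], R), true) :: π) ∧
      Vc (bn M) (st (bn M) π) (S ++ zl π) F v ∧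
      ¬ sml c0 n b M (S ++ zl π) (st (bn M) ((S, F, ([v], R), true) :: π)) ∧
      D = st (bn M) ((S, F, ([v], R), true) :: π)}.Finite

end Pool.Agent.CR
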