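import Pool.Agent.H71.CR.Iso
import Pool.Agent.H71.VK.FIM
import Pool.Agent.H94.VK.MVM

/-!
# Group D: the group generated by local automorphisms and swaps, exact statements
-/

set_option autoImplicit false

open Set Pool.Agent.TK Pool.Agent.H71.VK

namespace Pool.Agent.CR

open Pool.Agent.H41.ST (RelN FlatN)

/-- MST: membership in pieces and validity of presentations are Borel. -/
def T_MST (C : Type) [MeasurableSpace C] : Prop :=
  ∀ π : Pr, (∀ x, MeasurableSet {M : St (C × ℕ) | x ∈ st (bn M) π}) ∧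
    MeasurableSet {M : St (C × ℕ) | Vd (bn M) π}

/-- MVS: the conditions on atoms and swaps are Borel. -/
def T_MVS (C : Type) [MeasurableSpace C] : Prop :=
  ∀ (π : Pr) (S : List ℕ) (F : Ed) (v v' : ℕ) (R R' : List ℕ),
    MeasurableSet {M : St (C × ℕ) | Vc (bn M) (st (bn M) π) (S ++ zl π) F v} ∧
    MeasurableSet {M : St (C × ℕ) | Swp (bn M) (st (bn M) π) (S ++ zl π)
      (st (bn M) ((S, F, ([v], R), true) :: π)) (st (bn M) ((S, F, ([v'], R'), true) :: π))}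

/-- MBV: the class of the structures with bounded labels is Borel. -/
def T_MBV (C : Type) [MeasurableSpace C] [StandardBorelSpace C] : Prop :=
  ∀ (c0 : C) (n : Bd), MeasurableSet {M : St (C × ℕ) | BV c0 n M}

/-- FIMP: isomorphism of a piece with a fixed triple is Borel. -/
def T_FIMP (C : Type) [MeasurableSpace C] [StandardBorelSpace C] : Prop :=
  ∀ (a : List ℕ) (π : Pr) (N : St (C × ℕ)) (b : List ℕ) (E : Set ℕ),
    MeasurableSet {M : St (C × ℕ) | FI M a (st (bn M) π) N b E}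

/-- GLA: gluing of an automorphism of a piece. -/
def T_GLA (C : Type) (c0 : C) : Prop :=
  ∀ (n : Bd) (M : St (C × ℕ)), BV c0 n M → ∀ π : Pr, Vd (bn M) π → ∀ g : ℕ → ℕ,
    FIh g M (zl π) (st (bn M) π) M (zl π) (st (bn M) π) →
    ∃ f : Equiv.Perm ℕ, IsoH f M M ∧ (∀ a ∈ st (bn M) π, f a = g a) ∧
      ∀ x, x ∉ st (bn M) π → f x = x

/-- GSW: the swap of two atoms. -/
def T_GSW (C : Type) (c0 : C) : Prop :=
  ∀ (n : Bd) (M : St (C × ℕ)), BV c0 n M → ∀ (π : Pr) (S : List ℕ) (F : Ed) (v v' : ℕ)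
    (R R' : List ℕ),
    Vd (bn M) ((S, F, ([v], R), true) :: π) → Vd (bn M) ((S, F, ([v'], R'), true) :: π) →
    Vc (bn M) (st (bn M) π) (S ++ zl π) F v → Vc (bn M) (st (bn M) π) (S ++ zl π) F v' →
    v' ∉ st (bn M) ((S, F, ([v], R), true) :: π) →
    Swp (bn M) (st (bn M) π) (S ++ zl π) (st (bn M) ((S, F, ([v], R), true) :: π))
      (st (bn M) ((S, F, ([v'], R'), true) :: π)) → ∀ g : ℕ → ℕ,
    FIh g M (S ++ zl π) (st (bn M) ((S, F, ([v], R), true) :: π)) M (S ++ zl π)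
      (st (bn M) ((S, F, ([v'], R'), true) :: π)) →
    ∃ f : Equiv.Perm ℕ, IsoH f M M ∧ (∀ x, f (f x) = x) ∧
      (∀ a ∈ st (bn M) ((S, F, ([v], R), true) :: π), f a = g a) ∧
      f '' st (bn M) ((S, F, ([v], R), true) :: π) =
        st (bn M) ((S, F, ([v'], R'), true) :: π) ∧
      ∀ x, x ∉ st (bn M) ((S, F, ([v], R), true) :: π) →
        x ∉ st (bn M) ((S, F, ([v'], R'), true) :: π) → f x = x

/-- MVB: the moves by local automorphisms are Borel. -/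
def T_MVB (C : Type) (c0 : C) [MeasurableSpace C] [StandardBorelSpace C] : Prop :=
  ∀ (n : Bd) (O : Set (Tr C)), O.Countable → ∀ l m : List ℕ,
    MeasurableSet {M : St (C × ℕ) | BV c0 n M ∧ MvA O M l m}

/-- MVC: the moves by swaps are Borel. -/
def T_MVC (C : Type) (c0 : C) [MeasurableSpace C] [StandardBorelSpace C] : Prop :=
  ∀ (n : Bd) (O : Set (Tr C)), O.Countable → ∀ l m : List ℕ,
    MeasurableSet {M : St (C × ℕ) | BV c0 n M ∧ MvS O M l m}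

/-- RLG: the orbit relation is generated by the moves, and it is Borel. -/
def T_RLG (C : Type) (c0 : C) [MeasurableSpace C] [StandardBorelSpace C] : Prop :=
  (∀ (O : Set (Tr C)) (M : St (C × ℕ)) (l m : List ℕ), RelN (NG O M) l m ↔
    Relation.ReflTransGen (fun l m => MvA O M l m ∨ MvS O M l m) l m) ∧
  ∀ (n : Bd) (O : Set (Tr C)), O.Countable → ∀ l m : List ℕ,
    MeasurableSet {M : St (C × ℕ) | BV c0 n M ∧ RelN (NG O M) l m}

/-- RTG: transport of the orbit relation. -/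
def T_RTG (C : Type) : Prop :=
  (∀ (O : Set (Tr C)) (M : St (C × ℕ)), NG O M ≤ AutG M) ∧
  ∀ (O : Set (Tr C)) (M N : St (C × ℕ)) (h : Equiv.Perm ℕ), IsoH h M N → ∀ l m : List ℕ,
    RelN (NG O M) l m → RelN (NG O N) (l.map h) (m.map h)

/-- EMA: an automorphism which fixes the parameters of a piece with type in `O` agrees at a point
of the piece with an element of the group. -/
def T_EMA (C : Type) (c0 : C) : Prop :=
  ∀ (n : Bd) (O : Set (Tr C)) (M : St (C × ℕ)), BV c0 n M → ∀ π : Pr, Vd (bn M) π →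
    InO O M (zl π) (st (bn M) π) → ∀ (k : Equiv.Perm ℕ), IsoH k M M → ∀ Z : List ℕ, dl π ⊆ Z →
    (∀ x ∈ Z, k x = x) → ∀ v ∈ st (bn M) π,
      ∃ m ∈ NG O M, m v = k v ∧ ∀ x ∈ Z, m x = x

/-- EMS: the same for an atom with type in `O`. -/
def T_EMS (C : Type) (c0 : C) : Prop :=
  ∀ (n : Bd) (O : Set (Tr C)) (M : St (C × ℕ)), BV c0 n M → ∀ (π : Pr) (S : List ℕ) (F : Ed)
    (v : ℕ) (R : List ℕ), Vd (bn M) ((S, F, ([v], R), true) :: π) →
    Vc (bn M) (st (bn M) π) (S ++ zl π) F v →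
    InO O M (S ++ zl π) (st (bn M) ((S, F, ([v], R), true) :: π)) →
    ∀ (k : Equiv.Perm ℕ), IsoH k M M → ∀ Z : List ℕ, dl π ⊆ Z → S ⊆ Z → F.flatten ⊆ Z →
    (∀ x ∈ Z, k x = x) →
    (k v ∉ st (bn M) ((S, F, ([v], R), true) :: π) → Swp (bn M) (st (bn M) π) (S ++ zl π)
      (st (bn M) ((S, F, ([v], R), true) :: π))
      (k '' st (bn M) ((S, F, ([v], R), true) :: π))) →
    ∃ m ∈ NG O M, m v = k v ∧ ∀ x ∈ Z, m x = x

/-- GNG: the general theorem for the group `NG`. -/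
def T_GNG (C : Type) (c0 : C) [MeasurableSpace C] [StandardBorelSpace C] : Prop :=
  ∀ (n : Bd) (O : Set (Tr C)), O.Countable → ∀ X : Set (St (C × ℕ)), MeasurableSet X →
    (∀ M ∈ X, BV c0 n M) → ∀ P : St (C × ℕ) → Prop,
    (∀ M ∈ X, ∀ (ν : List ℕ → ℕ) (φ : Y (C × ℕ)), FlatN (NG O M) M ν φ → PDiv (AutY φ) → P M) →
    Perf X ∨ (∃ T' : Set (St (C × ℕ)), T'.Countable ∧ ∀ M ∈ X, ∃ N ∈ T', Iso M N) ∨
      ¬ ∃ T' : Set (St (C × ℕ)), T'.Countable ∧ ∀ M ∈ X, P M → ∃ N ∈ T', Iso M N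

/-- SYG: the interface of the group. -/
def T_SYG (C : Type) (c0 : C) : Prop :=
  ∀ (n : Bd) (O : Set (Tr C)) (M : St (C × ℕ)), BV c0 n M →
    (∀ (π : Pr) (S : List ℕ) (F : Ed), Vd (bn M) π →
      {D : Set ℕ | ∃ (v : ℕ) (R : List ℕ), Vd (bn M) ((S, F, ([v], R), true) :: π) ∧
        Vc (bn M) (st (bn M) π) (S ++ zl π) F v ∧ ¬ SmO O M ((S, F, ([v], R), true) :: π) ∧
        D = st (bn M) ((S, F, ([v], R), true) :: π)}.Finite) →
    ∀ (ν : List ℕ → ℕ) (φ : Y (C × ℕ)), FlatN (NG O M) M ν φ → PDiv (AutY φ) →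
      ∃ G : GS n (bn M) (SmO O M), ∀ p ∈ G.K, IsoH p.1 M M

/-- DVP: divisibility at a good piece. -/
def T_DVP (C : Type) (c0 : C) : Prop :=
  ∀ (n : Bd) (M : St (C × ℕ)), BV c0 n M → ∀ (Sm : Pr → Prop) (G : GS n (bn M) Sm),
    (∀ p ∈ G.K, IsoH p.1 M M) → ∀ π : Pr, Vd (bn M) π → ¬ G.Nn (st (bn M) π) →
    ∃ H : Subgroup (Equiv.Perm ℕ),
      (∀ g ∈ H, IsoH g M M ∧ ∀ z, z ∉ st (bn M) π → g z = z) ∧
      (∀ g : Equiv.Perm ℕ, (∀ E : Finset ℕ, ∃ h ∈ H, ∀ x ∈ E, h x = g x) → g ∈ H) ∧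
      ∃ φ : H →* Equiv.Perm ℕ, Function.Surjective φ ∧
        (∀ n : ℕ, ∃ E : Finset ℕ, ∀ h h' : H,
          (∀ x ∈ E, (h : Equiv.Perm ℕ) x = (h' : Equiv.Perm ℕ) x) → φ h n = φ h' n) ∧
        ∀ (h : H) (B : Set ℕ), G.Nn B → (∀ z, z ∉ B → (h : Equiv.Perm ℕ) z = z) →
          {n | φ h n ≠ n}.Finite

end Pool.Agent.CR
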