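import Pool.Agent.H71.CR.BasicB
import Pool.Agent.H71.CR.StmtB
import Pool.Agent.H71.CR.StmtC
import Pool.Agent.H71.CR.StmtD
import Pool.Agent.H71.CR.StmtE
import Pool.Agent.H71.CR.Top

/-! All statements of the board cwr_modules. -/
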