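import Pool.Agent.H71.CR.StmtB
import Pool.Agent.H41.CW.Tkc

/-!
Statements on the width, on the Borel form of the bound for the germs, and on subdivisions.
-/

set_option autoImplicit false

open Set Pool.Agent.TK Pool.Agent.H71.VK

namespace Pool.Agent.CR

/-! ### width -/

/-- W1: all nodes have few classes over their complements. -/
def W1 : Prop :=
  ∀ (n : Bd) (c : Lf) (k : ℕ) (W A : Finset ℕ), MW n c k W A →
    A ⊆ W ∧ A.Nonempty ∧ Few n c (k + 1) ((W : Set ℕ) \ A) A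

/-- W2: a node which contains at least two points of `Y` has a smaller node, split into two
nodes both of which meet `Y`, that contains `Y`. -/
def W2 : Prop :=
  ∀ (n : Bd) (c : Lf) (k : ℕ) (W P : Finset ℕ), MW n c k W P → ∀ Y : Finset ℕ, Y ⊆ P →
    2 ≤ Y.card → ∃ A B : Finset ℕ, MW n c k W A ∧ MW n c k W B ∧ MW n c k W (A ∪ B) ∧
      Disjoint A B ∧ A ∪ B ⊆ P ∧ Y ⊆ A ∪ B ∧ (Y ∩ A).Nonempty ∧ (Y ∩ B).Nonempty

/-- W3: the limit of sets with few classes over their complements in `{0, …, n - 1}` has few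
classes over its complement. -/
def W3 : Prop :=
  ∀ (n : Bd) (c : Lf) (k : ℕ) (V : Ultrafilter ℕ), (∀ i, {m | i ≤ m} ∈ V) →
    ∀ A : ℕ → Finset ℕ,
      {i | Few n c k ((Finset.range i : Finset ℕ) \ (A i) : Set ℕ) (A i)} ∈ V →
    Few n c k {z | {i | z ∈ A i} ∈ V}ᶜ {z | {i | z ∈ A i} ∈ V}

/-- WFX: few classes are finitely many classes. -/
def T_WFX : Prop :=
  ∀ (n : Bd) (c : Lf) (k : ℕ) (Y A : Set ℕ), Few n c k Y A → Fx n c Y A

/-- W4: in a structure of finite width there are for every direction `U` and every finite set `Y`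
a member `N` of `U` and a subset `N'` of `N` which is not in `U`, both with few classes over their
complements, such that all points of `Y` are in `N'` or outside `N`. -/
def W4 : Prop :=
  ∀ (n : Bd) (c : Lf) (k : ℕ), Lb n c → Wd n c k → ∀ U, Dirn n c U → ∀ Y : Finset ℕ,
    ∃ N N' : Set ℕ, N ∈ U ∧ N'ᶜ ∈ U ∧ N' ⊆ N ∧ Few n c (k + 1) Nᶜ N ∧
      Few n c (k + 1) N'ᶜ N' ∧ ∀ y ∈ Y, y ∈ N' ∨ y ∉ N

/-- FEC: the number of the classes of the tuples outside a set with few classes. -/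
def T_FEC : Prop :=
  ∀ (n : Bd) (k : ℕ), ∃ m : ℕ, ∀ c : Lf, Lb n c → ∀ A : Set ℕ, Few n c k Aᶜ A → Few n c m A Aᶜ

/-- W5: the number of the classes of the tuples with points in `N'` or outside `N`. -/
def W5 : Prop :=
  ∀ (n : Bd) (k : ℕ), ∃ m : ℕ, ∀ c : Lf, Lb n c → ∀ N N' : Set ℕ, N' ⊆ N → Few n c k Nᶜ N →
    Few n c k N'ᶜ N' → ∃ f : List ℕ → Fin m, ∀ x x' : List ℕ, x.length ≤ n.2 →
      x.length = x'.length → (∀ a ∈ x, a ∈ N' ∨ a ∉ N) → (∀ a ∈ x', a ∈ N' ∨ a ∉ N) →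
      f x = f x' → SO c (N \ N') x x'

/-- WAM: structures of width at most `k` have a bounded number of germs. -/
def T_WAM : Prop :=
  ∀ (n : Bd) (k : ℕ), ∃ m : ℕ, ∀ c : Lf, Lb n c → Wd n c k → AtM n c m

/-! ### the Borel form -/

/-- the set `Z` is controlled by the list `S` in `W` -/
def Ct (c : Lf) (S : List ℕ) (W Z : Set ℕ) : Prop :=
  ∀ p : List (ℕ × ℕ), (∀ z ∈ p, z.1 ∈ Z ∧ z.2 ∈ Z) → Pl c c (dg S ++ p) →
    ∀ D : List ℕ, (∀ x ∈ D, x ∈ W ∧ x ∉ Z) → Pl c c (dg D ++ (dg S ++ p))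

/-- the Borel form of `AtM` -/
def AtQ (n : Bd) (c : Lf) (m : ℕ) : Prop :=
  ∀ f : Fin (m + 1) → List ℕ, (∀ i, (f i).length ≤ n.2) → (∀ i j, (f i).length = (f j).length) →
    ∃ (N : ℕ) (L : List (List ℕ × Fin (m + 1) × Fin (m + 1))), (∀ l ∈ L, l.2.1 ≠ l.2.2) ∧
      ∀ M : ℕ, ∃ K : List ((List ℕ × Fin (m + 1) × Fin (m + 1)) × Finset ℕ),
        K.map Prod.fst = L ∧
        (∀ k ∈ K, (∀ y ∈ k.2, y < M) ∧ Ct c k.1.1 {y | y < M} (k.2 : Set ℕ) ∧
          SO c (k.2 : Set ℕ) (f k.1.2.1) (f k.1.2.2)) ∧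
        ∀ y, N ≤ y → y < M → ∃ k ∈ K, y ∈ k.2

/-- GMA: from directions to the Borel form. -/
def T_GMA : Prop := ∀ (n : Bd) (c : Lf), Lb n c → ∀ m, AtM n c m → AtQ n c m

/-- GMB: from the Borel form to directions. -/
def T_GMB : Prop := ∀ (n : Bd) (c : Lf), Lb n c → ∀ m, AtQ n c m → AtM n c m

/-- GM2: the second form is Borel. -/
def T_GM2 : Prop := ∀ (n : Bd) (m : ℕ), MeasurableSet {c : Lf | AtQ n c m}

/-- GM3: invariance. -/
def T_GM3 : Prop :=
  ∀ (n : Bd) (c c' : Lf) (g : Equiv.Perm ℕ), (∀ l : List ℕ, c' (l.map g) = c l) →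
    ∀ m, AtM n c m → AtM n c' m

/-! ### subdivisions -/

/-- the pairs of points of tuples with a label which is not the default label -/
def Gf (c : Lf) (e : ℕ → ℕ) : SimpleGraph ℕ :=
  SimpleGraph.fromRel fun i j => ∃ l : List ℕ, c l ≠ e l.length ∧ i ∈ l ∧ j ∈ l

/-- TKB: a direction with infinitely many germs gives an infinite inseparable set. -/
def T_TKB : Prop :=
  ∀ (n : Bd) (c : Lf) (U : Set (Set ℕ)) (e : ℕ → ℕ), Lb n c → Dirn n c U →
    ¬ FGm n c U → ∃ B : Set ℕ, B.Infinite ∧ Pool.Agent.CW.Insep (Gf c e) B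

end Pool.Agent.CR
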