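import Pool.Agent.H71.CR.Stmt
import Pool.Agent.H71.CR.StmtW

/-! All statements of the board cwr_modules, with group W. -/
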