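import Pool.Agent.H71.CR.Code
import Pool.Agent.H41.HC.Main

/-! The binary case: structures with few types of substructures. -/

set_option autoImplicit false

open Set Pool.Agent.TK Pool.Agent.H71.VK

namespace Pool.Agent.CR

/-- the structures which `x` induces on the infinite sets, in all their enumerations -/
def SubD {r n : ℕ} {C : Type} (x : DS r n C) : Set (DS r n C) :=
  {y | ∃ f : ℕ → ℕ, Function.Injective f ∧ y = (fun a => x.1 (f ∘ a), fun i => x.2 (f i))}

/-- BIN: binary structures without perfectly many types of substructures have a bounded number of
germs at all directions. -/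
def T_BIN : Prop :=
  ∀ (n : ℕ) (C : Type) [MeasurableSpace C] [StandardBorelSpace C] (x : DS 2 n C),
    ¬ PerfD (SubD x) → ∃ m, AtM (n, 2) (nb x.1) m

end Pool.Agent.CR
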